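import Pool.Agent.Q76.H2.Stm

set_option autoImplicit false

open Set Filter Topology MeasureTheory

namespace Pool.Agent.Q76.H2

open Pool.Agent.Q76.HR

section

variable {F : Type} [NormedAddCommGroup F] [InnerProductSpace ℝ F]

lemma Pd_convex (K : Set (Sp F)) : Convex ℝ (Pd K) := by
  intro p hp q hq a b ha hb hab r hr
  have h1 := hp r hr
  have h2 := hq r hr
  rw [inner_add_left, real_inner_smul_left, real_inner_smul_left]
  calc a * inner ℝ p r.fst + b * inner ℝ q r.fst ≤ a * r.snd + b * r.snd :=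
        add_le_add (mul_le_mul_of_nonneg_left h1 ha) (mul_le_mul_of_nonneg_left h2 hb)
    _ = r.snd := by rw [← add_mul, hab, one_mul]

lemma Pd_closed (K : Set (Sp F)) : IsClosed (Pd K) := by
  have : Pd K = ⋂ (q : Sp F) (_ : q ∈ K), {p : F | inner ℝ p q.fst ≤ q.snd} := by
    ext p; simp [Pd]
  rw [this]
  refine isClosed_iInter fun q => isClosed_iInter fun _ => ?_
  exact isClosed_le (continuous_id.inner continuous_const) continuous_const

/-- The cone of a continuous function. -/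
lemma Cn_Co {f : F → ℝ} (hf : Continuous f) : Cn (Co f) where
  closed := Co_closed hf
  add := fun _ hp _ hq => Co_add hp hq
  smul := fun _ hp _ hr => Co_smul hp hr
  ev_mem := ev_mem_Co f
  neg_ev := neg_ev_not_mem_Co f

lemma Co_sc_eq {f : F → ℝ} {c : ℝ} (hc : 0 < c) : Co (sc f c) = Sc (Co f) c := by
  ext p
  exact mem_Co_sc hc

/-- A product cone is invariant under the scalings. -/
lemma Sc_of_Prd {K : Set (Sp F)} (hK : Cn K) (hP : Prd K) {c : ℝ} (hc : 0 < c) : Sc K c = K := by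
  have key : ∀ p : Sp F, p ∈ K ↔ (0 ≤ p.snd ∧ pt p.fst 0 ∈ K) := by
    intro p
    refine ⟨hP p, fun h => ?_⟩
    have e : p = pt p.fst 0 + p.snd • ev := by
      apply ext' <;> simp
    rw [e]
    exact hK.add _ h.2 _ (hK.smul _ hK.ev_mem _ h.1)
  ext p
  change pt (c • p.fst) p.snd ∈ K ↔ p ∈ K
  rw [key, key p]
  simp only [pt_fst, pt_snd]
  refine and_congr_right fun _ => ⟨fun h => ?_, fun h => ?_⟩
  · have h1 := hK.smul _ h c⁻¹ (inv_nonneg.2 hc.le)
    have e : c⁻¹ • pt (c • p.fst) 0 = pt p.fst 0 := by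
      apply ext' <;> simp [smul_smul, inv_mul_cancel₀ hc.ne']
    rwa [e] at h1
  · have h1 := hK.smul _ h c hc.le
    have e : c • pt p.fst 0 = pt (c • p.fst) 0 := by
      apply ext' <;> simp
    rwa [e] at h1

end

section measure

variable {F : Type} [NormedAddCommGroup F] [InnerProductSpace ℝ F] [FiniteDimensional ℝ F]
  [MeasurableSpace F] [BorelSpace F]

/-- **The measure theorem.**  Three pairwise isometric scalings. -/
theorem measA (hU : S_U) (hW : S_W F) (hC : S_C F) (hV : S_V F) (hI : S_I F) (hD : S_D F)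
    {K : Set (Sp F)} (hK : Cn K) {a b c : ℝ} (ha : 0 < a) (hb : 0 < b) (hc : 0 < c) (hab : a ≠ b)
    (hac : a ≠ c) (hbc : b ≠ c) (U₁ U₂ : Sp F ≃ₗᵢ[ℝ] Sp F)
    (h1 : ∀ p, p ∈ Sc K a ↔ U₁ p ∈ Sc K b) (h2 : ∀ p, p ∈ Sc K a ↔ U₂ p ∈ Sc K c) :
    (∃ (e : F) (δ : ℝ), e ≠ 0 ∧ pt e δ ∈ K ∧ pt (-e) (-δ) ∈ K) ∨ Prd K := by
  obtain ⟨hcont, hbd, hqc⟩ := hW (Pd K) (Pd_convex K) (Pd_closed K)
  set V : ℝ → ℝ := fun t => ∫ u in Ioi (0:ℝ), Real.exp (-u ^ 2) * wG (Pd K) (t * u) with hVdef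
  have e1 : V a = V b := by
    have := hI _ _ U₁ h1
    rwa [hV K hK a ha, hV K hK b hb] at this
  have e2 : V a = V c := by
    have := hI _ _ U₂ h2
    rwa [hV K hK a ha, hV K hK c hc] at this
  have sorted : ∀ x y z : ℝ, 0 < x → x < y → y < z → V x = V y → V y = V z →
      ∀ s t : ℝ, 0 < s → 0 < t → wG (Pd K) s = wG (Pd K) t := fun x y z hx hxy hyz h3 h4 =>
    hU (wG (Pd K)) _ hcont hbd hqc x y z hx hxy hyz h3 h4
  have hconst : ∀ s t : ℝ, 0 < s → 0 < t → wG (Pd K) s = wG (Pd K) t := by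
    have e3 : V b = V c := e1.symm.trans e2
    rcases lt_or_gt_of_ne hab with h | h <;> rcases lt_or_gt_of_ne hac with h' | h' <;>
      rcases lt_or_gt_of_ne hbc with h'' | h''
    · exact sorted a b c ha h h'' e1 e3
    · exact sorted a c b ha h' h'' e2 e3.symm
    · exact absurd (h.trans h'') (not_lt.2 h'.le)
    · exact sorted c a b hc h' h e2.symm e1
    · exact sorted b a c hb h h' e1.symm e2
    · exact absurd (h'.trans h'') (not_lt.2 h.le)
    · exact sorted b c a hb h'' h' e3 e2.symm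
    · exact sorted c b a hc h'' h e3.symm e1.symm
  obtain ⟨hD1, hD2⟩ := hD K hK
  rcases hC (Pd K) (Pd_convex K) (Pd_closed K) hconst with h | h
  · exact Or.inl (hD1 h)
  · exact Or.inr (hD2 h)

end measure

section vertical

variable {F : Type} [NormedAddCommGroup F] [InnerProductSpace ℝ F] [FiniteDimensional ℝ F]

lemma Good_ev (f : F → ℝ) (c : ℝ) : Good f c ev :=
  ⟨0, (La _).zero_mem, 1, by simp, by simp⟩

/-- The vertical case, `a < b`. -/
lemma vert_lt {f : F → ℝ} (hf : Continuous f) {a b : ℝ} (ha : 0 < a) (hb : 0 < b) (hab : a < b)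
    {R : Sp F ≃ₗᵢ[ℝ] Sp F} {τ : Sp F} (h : Rel R τ (sc f b) (sc f a))
    (hR : R ev = ev ∨ R ev = -ev) : ∃ L : F →ₗ[ℝ] ℝ, ∀ x, f x = f 0 + L x := by
  have hq : ∃ q, R ev = q ∧ Good f a q ∧ |q.snd| = 1 := by
    rcases hR with h1 | h1
    · exact ⟨ev, h1, Good_ev f a, by simp⟩
    · exact ⟨-ev, h1, (Good_ev f a).neg, by simp⟩
  obtain ⟨q, hRq, hgq, hqs⟩ := hq
  obtain ⟨S, -, hS, hgS⟩ := selfsim ha hb h hRq (Good_ev f b) hgq
  refine affine_of_const ?_
  have hgc : Continuous fun z : (Vs f)ᗮ => f (z : F) := hf.comp continuous_subtype_val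
  refine const_of_one hgc (div_pos ha hb).le ((div_lt_one hb).2 hab) hS (l := 1) le_rfl ?_
  intro x y
  have := hgS x y
  rw [hqs] at this
  simpa using this

/-- The vertical case. -/
lemma vert {f : F → ℝ} (hf : Continuous f) {a b : ℝ} (ha : 0 < a) (hb : 0 < b) (hab : a ≠ b)
    {R : Sp F ≃ₗᵢ[ℝ] Sp F} {τ : Sp F} (h : Rel R τ (sc f b) (sc f a))
    (hR : R ev = ev ∨ R ev = -ev) : ∃ L : F →ₗ[ℝ] ℝ, ∀ x, f x = f 0 + L x := by
  rcases lt_or_gt_of_ne hab with h1 | h1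
  · exact vert_lt hf ha hb h1 h hR
  · refine vert_lt hf hb ha h1 h.symm ?_
    rcases hR with h2 | h2
    · left; rw [LinearIsometryEquiv.symm_apply_eq, h2]
    · right; rw [LinearIsometryEquiv.symm_apply_eq, map_neg, h2, neg_neg]

lemma affine_of_eq {f : F → ℝ} (h : ∀ x y, f x = f y) : ∃ L : F →ₗ[ℝ] ℝ, ∀ x, f x = f 0 + L x :=
  ⟨0, fun x => by simp [h x 0]⟩

end vertical

end Pool.Agent.Q76.H2
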