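import Pool.Agent.Q76.H2.Asm1

set_option autoImplicit false

open Set Filter Topology MeasureTheory

namespace Pool.Agent.Q76.H2

open Pool.Agent.Q76.HR

variable {F : Type} [NormedAddCommGroup F] [InnerProductSpace ℝ F] [FiniteDimensional ℝ F]

/-- Expansion in an orthonormal pair of a two-dimensional space. -/
lemma expand (h2 : Module.finrank ℝ F = 2) {n₁ n₂ : F} (h₁ : ‖n₁‖ = 1) (h₂ : ‖n₂‖ = 1)
    (h₁₂ : inner ℝ n₁ n₂ = 0) (x : F) : x = inner ℝ n₁ x • n₁ + inner ℝ n₂ x • n₂ := by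
  have ho : Orthonormal ℝ ![n₁, n₂] := by
    rw [orthonormal_iff_ite]
    intro i j
    fin_cases i <;> fin_cases j
    · simp [h₁]
    · simp [h₁₂]
    · simp [real_inner_comm, h₁₂]
    · simp [h₂]
  let b := (basisOfOrthonormalOfCardEqFinrank ho (by rw [h2]; rfl)).toOrthonormalBasis
    (by simpa using ho)
  have hb : ∀ i, b i = ![n₁, n₂] i := by
    intro i
    simp [b]
  have := b.sum_repr' x
  rw [Fin.sum_univ_two, hb, hb] at this
  exact this.symm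

lemma rel_one {f : F → ℝ} {c : ℝ} {O : Sp F ≃ₗᵢ[ℝ] Sp F} {τ : Sp F} (h : Rel O τ f (sc f c)) :
    Rel O τ (sc f 1) (sc f c) := by
  have e : sc f 1 = f := by funext x; simp [sc]
  rwa [e]

/-- **The product case.** -/
theorem prodcase (hE : S_E F) (hO1 : S_O1 F) (hO2 : S_O2 F) (h2 : Module.finrank ℝ F = 2)
    {f : F → ℝ} (hf : Continuous f) (hP : Prd (Co f)) (hpt : ∀ q ∈ Co f, -q ∈ Co f → q = 0)
    {c₁ c₂ : ℝ} (hc₁ : 0 < c₁) (hc₂ : 0 < c₂) (h11 : c₁ ≠ 1) (h21 : c₂ ≠ 1) (h12 : c₁ ≠ c₂)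
    {O₁ O₂ : Sp F ≃ₗᵢ[ℝ] Sp F} {τ₁ τ₂ : Sp F} (hr1 : Rel O₁ τ₁ f (sc f c₁))
    (hr2 : Rel O₂ τ₂ f (sc f c₂)) : ∃ L : F →ₗ[ℝ] ℝ, ∀ x, f x = f 0 + L x := by
  have hK := Cn_Co hf
  obtain ⟨U₁, hU₁O, hU₁C, -⟩ := hr1.exists_sign hf (sc_cont hf c₁)
  obtain ⟨U₂, hU₂O, hU₂C, -⟩ := hr2.exists_sign hf (sc_cont hf c₂)
  have hC₁ : ∀ p, p ∈ Co f ↔ U₁ p ∈ Co f := by
    intro p; rw [hU₁C, Co_sc_eq hc₁, Sc_of_Prd hK hP hc₁]
  have hC₂ : ∀ p, p ∈ Co f ↔ U₂ p ∈ Co f := by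
    intro p; rw [hU₂C, Co_sc_eq hc₂, Sc_of_Prd hK hP hc₂]
  -- vertical cases
  by_cases hv1 : U₁ ev = ev
  · refine vert hf hc₁ one_pos h11 (rel_one hr1) ?_
    rcases hU₁O with h | h
    · left; rw [← h, hv1]
    · right
      have h3 := h ev
      rw [hv1] at h3
      exact (neg_eq_iff_eq_neg.2 h3).symm
  by_cases hv2 : U₂ ev = ev
  · refine vert hf hc₂ one_pos h21 (rel_one hr2) ?_
    rcases hU₂O with h | h
    · left; rw [← h, hv2]
    · right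
      have h3 := h ev
      rw [hv2] at h3
      exact (neg_eq_iff_eq_neg.2 h3).symm
  have hC₁₂ : ∀ p, p ∈ Co f ↔ (U₁.symm.trans U₂) p ∈ Co f := by
    intro p
    rw [LinearIsometryEquiv.trans_apply, ← hC₂]
    have := hC₁ (U₁.symm p)
    rw [LinearIsometryEquiv.apply_symm_apply] at this
    exact this.symm
  by_cases hv3 : (U₁.symm.trans U₂) ev = ev
  · refine vert hf hc₂ hc₁ (Ne.symm h12) (hr1.symm.trans hr2) ?_
    rw [LinearIsometryEquiv.trans_apply] at hv3 ⊢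
    have e1 : O₁.symm ev = U₁.symm ev ∨ O₁.symm ev = -(U₁.symm ev) := by
      rcases hU₁O with h | h
      · left; rw [LinearIsometryEquiv.symm_apply_eq, ← h]; simp
      · right
        rw [LinearIsometryEquiv.symm_apply_eq, map_neg, ← h]; simp
    have e2 : O₂ (U₁.symm ev) = ev ∨ O₂ (U₁.symm ev) = -ev := by
      rcases hU₂O with h | h
      · left; rw [← h, hv3]
      · right
        have h3 := h (U₁.symm ev)
        rw [hv3] at h3
        exact (neg_eq_iff_eq_neg.2 h3).symm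
    rcases e1 with e1 | e1
    · rw [e1]; exact e2
    · rw [e1, map_neg]
      rcases e2 with e2 | e2
      · right; rw [e2]
      · left; rw [e2, neg_neg]
  -- the orthonormal basis
  have hs1 := (hE _ hK hP hpt U₁ hC₁).resolve_left hv1
  have hs2 := (hE _ hK hP hpt U₂ hC₂).resolve_left hv2
  have hs3 := (hE _ hK hP hpt _ hC₁₂).resolve_left hv3
  set n₁ : F := (U₁.symm ev).fst with hn₁
  set n₂ : F := (U₂.symm ev).fst with hn₂
  have hN₁ : U₁.symm ev = pt n₁ 0 := ext' rfl hs1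
  have hN₂ : U₂.symm ev = pt n₂ 0 := ext' rfl hs2
  have hU₁n : U₁ (pt n₁ 0) = ev := by rw [← hN₁]; simp
  have hU₂n : U₂ (pt n₂ 0) = ev := by rw [← hN₂]; simp
  have hnorm : ∀ v : F, ‖pt v 0‖ = ‖v‖ := by
    intro v
    have h1 : ‖pt v 0‖ ^ 2 = ‖v‖ ^ 2 := by
      rw [← real_inner_self_eq_norm_sq, inner_sp]
      simp
    exact (sq_eq_sq₀ (norm_nonneg _) (norm_nonneg _)).1 h1
  have hn1 : ‖n₁‖ = 1 := by rw [← hnorm, ← hN₁, LinearIsometryEquiv.norm_map, norm_ev]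
  have hn2 : ‖n₂‖ = 1 := by rw [← hnorm, ← hN₂, LinearIsometryEquiv.norm_map, norm_ev]
  have hn12 : inner ℝ n₁ n₂ = 0 := by
    have h1 : inner ℝ (pt n₁ 0) (pt n₂ 0) = 0 := by
      rw [← U₁.inner_map_map, hU₁n, real_inner_comm, inner_ev, ← hN₂]
      exact hs3
    rw [inner_sp] at h1
    simpa using h1
  have hex := expand h2 hn1 hn2 hn12
  have hin : ∀ (n : F) (p : Sp F), inner ℝ n p.fst = inner ℝ (pt n 0) p := by
    intro n p
    rw [inner_sp]; simp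
  -- the octant
  have hoct : ∀ p : Sp F, p ∈ Co f ↔ (0 ≤ inner ℝ n₁ p.fst ∧ 0 ≤ inner ℝ n₂ p.fst ∧ 0 ≤ p.snd) := by
    intro p
    constructor
    · intro hp
      refine ⟨?_, ?_, (hP p hp).1⟩
      · rw [hin, ← U₁.inner_map_map, hU₁n, real_inner_comm, inner_ev]
        exact (hP _ ((hC₁ p).1 hp)).1
      · rw [hin, ← U₂.inner_map_map, hU₂n, real_inner_comm, inner_ev]
        exact (hP _ ((hC₂ p).1 hp)).1
    · rintro ⟨h1, h2', h3⟩
      have m1 : pt n₁ 0 ∈ Co f := by rw [hC₁, hU₁n]; exact ev_mem_Co f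
      have m2 : pt n₂ 0 ∈ Co f := by rw [hC₂, hU₂n]; exact ev_mem_Co f
      have e : p = inner ℝ n₁ p.fst • pt n₁ 0 + inner ℝ n₂ p.fst • pt n₂ 0 + p.snd • ev := by
        apply ext'
        · simp only [fst_add, fst_smul, pt_fst, ev_fst, smul_zero, add_zero]
          exact hex p.fst
        · simp
      rw [e]
      exact Co_add (Co_add (Co_smul m1 h1) (Co_smul m2 h2')) (Co_smul (ev_mem_Co f) h3)
  have hA := hO1 n₁ n₂ hn1 hn2 hn12 hex U₁ (fun p => by rw [← hoct, ← hoct]; exact hC₁ p) hU₁n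
  have hex' : ∀ x : F, x = inner ℝ n₂ x • n₂ + inner ℝ n₁ x • n₁ := fun x => by
    rw [add_comm]; exact hex x
  have hB := hO1 n₂ n₁ hn2 hn1 (by rw [real_inner_comm]; exact hn12) hex' U₂ (fun p => by
    have h3 := hC₂ p
    rw [hoct, hoct] at h3
    constructor
    · rintro ⟨g1, g2, g3⟩
      obtain ⟨k1, k2, k3⟩ := h3.1 ⟨g2, g1, g3⟩
      exact ⟨k2, k1, k3⟩
    · rintro ⟨g1, g2, g3⟩
      obtain ⟨k1, k2, k3⟩ := h3.2 ⟨g2, g1, g3⟩
      exact ⟨k2, k1, k3⟩) hU₂n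
  exact affine_of_eq (hO2 f hf n₁ n₂ hn1 hn2 hn12 hex c₁ c₂ hc₁ hc₂ h11 h21 h12 O₁ O₂ U₁ U₂ τ₁ τ₂
    hr1 hr2 hU₁O hU₂O hU₁n hU₂n hA hB)

end Pool.Agent.Q76.H2
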