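import Pool.Agent.Q76.H2.Asm2

set_option autoImplicit false
set_option linter.unusedSectionVars false

open Set Filter Topology MeasureTheory

namespace Pool.Agent.Q76.H2

open Pool.Agent.Q76.HR

/-- The planar rescaled functions. -/
noncomputable def Gf (δ : ℝ) (g : ℝ → ℝ) (a : ℝ) : ℝ → ℝ := fun s => kap δ a * g (a * s)

lemma kap_pos (δ a : ℝ) : 0 < kap δ a := by
  unfold kap
  positivity

lemma Gf_cont {g : ℝ → ℝ} (hg : Continuous g) (δ a : ℝ) : Continuous (Gf δ g a) :=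
  continuous_const.mul (hg.comp (continuous_const.mul continuous_id))

lemma Co_Gf {g : ℝ → ℝ} {a k : ℝ} (ha : 0 < a) (hk : 0 < k) :
    Co (fun s : ℝ => k * g (a * s)) = Sc (Co g) (a * k) := by
  ext p
  constructor
  · intro h y s hs
    have h1 := h (y / a) (s * k) (mul_pos hs hk)
    simp only [pt_fst, pt_snd, smul_eq_mul] at h1 ⊢
    have e1 : a * (y / a + s * k * p.fst) = y + s * (a * k * p.fst) := by
      field_simp
    have e2 : a * (y / a) = y := by field_simp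
    rw [e1, e2] at h1
    have h2 : k * g (y + s * (a * k * p.fst)) ≤ k * (g y + s * p.snd) := by
      calc _ ≤ _ := h1
        _ = _ := by ring
    exact le_of_mul_le_mul_left h2 hk
  · intro h x s hs
    have h1 := h (a * x) (s / k) (div_pos hs hk)
    simp only [pt_fst, pt_snd, smul_eq_mul] at h1 ⊢
    have e1 : a * x + s / k * (a * k * p.fst) = a * (x + s * p.fst) := by
      field_simp
    rw [e1] at h1
    have h2 := mul_le_mul_of_nonneg_left h1 hk.le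
    calc _ ≤ _ := h2
      _ = _ := by field_simp

lemma affine_of_La {g : ℝ → ℝ} {q : Sp ℝ} (hq : q ∈ La g) (h0 : q ≠ 0) :
    ∃ σ : ℝ, ∀ x, g x = g 0 + σ * x := by
  have hf : q.fst ≠ 0 := by
    intro h
    have hs : q.snd ≠ 0 := fun hs => h0 (ext' h hs)
    have h1 := (La g).smul_mem (q.snd)⁻¹ hq
    have e : (q.snd)⁻¹ • q = ev := by
      apply ext'
      · simp [h]
      · simp [hs]
    rw [e] at h1
    exact ev_not_mem_La g h1
  refine ⟨q.snd / q.fst, fun x => ?_⟩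
  have := hq 0 (x / q.fst)
  simp only [smul_eq_mul, zero_add, div_mul_cancel₀ x hf] at this
  rw [this]
  field_simp

/-- A vertical relation. -/
def Vt (δ : ℝ) (g : ℝ → ℝ) (a b : ℝ) : Prop :=
  ∃ (R : Sp ℝ ≃ₗᵢ[ℝ] Sp ℝ) (τ : Sp ℝ), Rel R τ (Gf δ g a) (Gf δ g b) ∧ (R ev = ev ∨ R ev = -ev)

/-- A horizontal relation. -/
def Ht (δ : ℝ) (g : ℝ → ℝ) (a b : ℝ) : Prop :=
  ∃ (R : Sp ℝ ≃ₗᵢ[ℝ] Sp ℝ) (τ : Sp ℝ), Rel R τ (Gf δ g a) (Gf δ g b) ∧ (R.symm ev).snd = 0

lemma Ht.symm {δ : ℝ} {g : ℝ → ℝ} {a b : ℝ} (h : Ht δ g a b) : Ht δ g b a := by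
  obtain ⟨R, τ, hR, h0⟩ := h
  refine ⟨R.symm, _, hR.symm, ?_⟩
  rw [LinearIsometryEquiv.symm_symm, ← inner_ev, ← R.symm.inner_map_map,
    LinearIsometryEquiv.symm_apply_apply, real_inner_comm, inner_ev]
  exact h0

lemma affine_of_eq' {g : ℝ → ℝ} (h : ∀ x y, g x = g y) : ∃ σ : ℝ, ∀ x, g x = g 0 + σ * x :=
  ⟨0, fun x => by rw [zero_mul, add_zero]; exact h x 0⟩

/-- The endgame in the plane. -/
theorem endgame (hQ2 : S_Q2) (hQ3 : S_Q3) (hQ4 : S_Q4) (hQ5 : S_Q5) {g : ℝ → ℝ}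
    (hg : Continuous g) {δ a b c : ℝ} (ha : 0 < a) (hb : 0 < b) (hc : 0 < c) (hab : a ≠ b)
    (hac : a ≠ c) (hbc : b ≠ c) (hv : Vt δ g a b) (hvh : Vt δ g a c ∨ Ht δ g a c) :
    ∃ σ : ℝ, ∀ x, g x = g 0 + σ * x := by
  have ka := kap_pos δ a
  have kb := kap_pos δ b
  have kc := kap_pos δ c
  by_cases hδ : δ = 0
  · subst hδ
    obtain ⟨R, τ, hR, he⟩ := hv
    have e1 : ∀ a, Gf 0 g a = sc g a := by
      intro a; funext s; simp [Gf, kap, sc]
    rw [e1, e1] at hR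
    obtain ⟨L, hL⟩ := vert hg hb ha (Ne.symm hab) hR he
    refine ⟨L 1, fun x => ?_⟩
    rw [hL x]
    have : L x = L 1 * x := by
      have h1 : L (x • (1:ℝ)) = x • L 1 := L.map_smul x 1
      rw [smul_eq_mul, mul_one, smul_eq_mul] at h1
      rw [h1, mul_comm]
    rw [this]
  have hmono : ∀ x y : ℝ, 0 < x → 0 < y → x ≠ y → x * kap δ x ≠ y * kap δ y := by
    intro x y hx hy hxy
    rcases lt_or_gt_of_ne hxy with h | h
    · exact ((hQ5.2 δ x y hx h).2.1).ne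
    · exact ((hQ5.2 δ y x hy h).2.1).ne'
  have hanti : ∀ x y : ℝ, 0 < x → 0 < y → x ≠ y → x * kap δ y ≠ y * kap δ x := by
    intro x y hx hy hxy
    rcases lt_or_gt_of_ne hxy with h | h
    · refine ne_of_lt ?_
      have h1 := (hQ5.2 δ x y hx h).2.2
      calc x * kap δ y ≤ x * kap δ x := mul_le_mul_of_nonneg_left h1 hx.le
        _ < y * kap δ x := mul_lt_mul_of_pos_right h (kap_pos δ x)
    · refine ne_of_gt ?_
      have h1 := (hQ5.2 δ y x hy h).2.2
      calc y * kap δ x ≤ y * kap δ y := mul_le_mul_of_nonneg_left h1 hy.le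
        _ < x * kap δ y := mul_lt_mul_of_pos_right h (kap_pos δ y)
  obtain ⟨R, τ, hR, he⟩ := hv
  obtain ⟨S, hSs, hS, hgS⟩ := hQ3 g a (kap δ a) b (kap δ b) ha ka hb kb R τ hR he
  have hρ : b / a ≠ 1 := by
    intro h
    rw [div_eq_one_iff_eq ha.ne'] at h
    exact hab h.symm
  rcases hvh with ⟨R', τ', hR', he'⟩ | ⟨R', τ', hR', he'⟩
  · obtain ⟨S', hSs', hS', hgS'⟩ := hQ3 g a (kap δ a) c (kap δ c) ha ka hc kc R' τ' hR' he'
    have hρ' : c / a ≠ 1 := by
      intro h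
      rw [div_eq_one_iff_eq ha.ne'] at h
      exact hac h.symm
    refine affine_of_eq' (hQ2 g hg S S' _ _ _ _ (div_pos hb ha) (div_pos hc ha) (div_pos ka kb)
      (div_pos ka kc) hρ hρ' hSs hSs' hS hS' hgS hgS' ?_)
    exact hQ5.1 δ a b c hδ ha hb hc hab hac hbc
  · obtain ⟨S', hSs', hS', hgS'⟩ := hQ4 g a (kap δ a) c (kap δ c) ha ka hc kc R' τ' hR' he'
    have hρ0 : 0 < c * kap δ a / (a * kap δ c) := by positivity
    have hρ' : c * kap δ a / (a * kap δ c) ≠ 1 := by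
      intro h
      rw [div_eq_one_iff_eq (by positivity)] at h
      exact hanti c a hc ha (Ne.symm hac) h
    refine affine_of_eq' (hQ2 g hg S S' _ _ _ _ (div_pos hb ha) hρ0 (div_pos ka kb)
      hρ0 hρ hρ' hSs hSs' hS hS' hgS hgS' ?_)
    intro h
    rw [mul_comm] at h
    have hl : Real.log (c * kap δ a / (a * kap δ c)) ≠ 0 := by
      intro h0
      rcases Real.log_eq_zero.1 h0 with h1 | h1 | h1
      · exact hρ0.ne' h1
      · exact hρ' h1
      · linarith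
    have h1 := mul_left_cancel₀ hl h
    have h2 := Real.log_injOn_pos (show kap δ a / kap δ b ∈ Ioi (0:ℝ) from div_pos ka kb)
      (show b / a ∈ Ioi (0:ℝ) from div_pos hb ha) h1
    rw [div_eq_div_iff kb.ne' ha.ne'] at h2
    exact hmono a b ha hb hab (by linarith)

/-- **The planar theorem.** -/
theorem planar (hU : S_U) (hW : S_W ℝ) (hC : S_C ℝ) (hV : S_V ℝ) (hI : S_I ℝ) (hD : S_D ℝ)
    (hE : S_E ℝ) (hQ2 : S_Q2) (hQ3 : S_Q3) (hQ4 : S_Q4) (hQ5 : S_Q5) {g : ℝ → ℝ}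
    (hg : Continuous g) {δ c₁ c₂ : ℝ} (hc₁ : 0 < c₁) (hc₂ : 0 < c₂) (h11 : c₁ ≠ 1) (h21 : c₂ ≠ 1)
    (h12 : c₁ ≠ c₂) {O₁ O₂ : Sp ℝ ≃ₗᵢ[ℝ] Sp ℝ} {τ₁ τ₂ : Sp ℝ}
    (hr1 : Rel O₁ τ₁ (Gf δ g 1) (Gf δ g c₁)) (hr2 : Rel O₂ τ₂ (Gf δ g 1) (Gf δ g c₂)) :
    ∃ σ : ℝ, ∀ x, g x = g 0 + σ * x := by
  have hK := Cn_Co hg
  obtain ⟨U₁, hU₁O, hU₁C, -⟩ := hr1.exists_sign (Gf_cont hg δ 1) (Gf_cont hg δ c₁)
  obtain ⟨U₂, hU₂O, hU₂C, -⟩ := hr2.exists_sign (Gf_cont hg δ 1) (Gf_cont hg δ c₂)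
  have hCo : ∀ a, 0 < a → Co (Gf δ g a) = Sc (Co g) (a * kap δ a) := fun a ha =>
    Co_Gf ha (kap_pos δ a)
  have hmono : ∀ x y : ℝ, 0 < x → 0 < y → x ≠ y → x * kap δ x ≠ y * kap δ y := by
    intro x y hx hy hxy
    rcases lt_or_gt_of_ne hxy with h | h
    · exact ((hQ5.2 δ x y hx h).2.1).ne
    · exact ((hQ5.2 δ y x hy h).2.1).ne'
  rw [hCo 1 one_pos, hCo c₁ hc₁] at hU₁C
  rw [hCo 1 one_pos, hCo c₂ hc₂] at hU₂C
  have hpos : ∀ a, 0 < a → 0 < a * kap δ a := fun a ha => mul_pos ha (kap_pos δ a)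
  rcases measA hU hW hC hV hI hD hK (hpos 1 one_pos) (hpos c₁ hc₁) (hpos c₂ hc₂)
    (hmono 1 c₁ one_pos hc₁ (Ne.symm h11)) (hmono 1 c₂ one_pos hc₂ (Ne.symm h21))
    (hmono c₁ c₂ hc₁ hc₂ h12) U₁ U₂ hU₁C hU₂C with ⟨e, d, he, h1, h2⟩ | hP
  · have h3 : -(pt e d) = pt (-e) (-d) := ext' rfl rfl
    refine affine_of_La (mem_La_of_Co h1 (by rw [h3]; exact h2)) ?_
    intro h4
    apply he
    have := congrArg (fun q : Sp ℝ => q.fst) h4
    exact this
  by_cases hpt : ∀ q ∈ Co g, -q ∈ Co g → q = 0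
  swap
  · push Not at hpt
    obtain ⟨q, h1, h2, h3⟩ := hpt
    exact affine_of_La (mem_La_of_Co h1 h2) h3
  have hC₁ : ∀ p, p ∈ Co g ↔ U₁ p ∈ Co g := by
    intro p
    have := hU₁C p
    rwa [Sc_of_Prd hK hP (hpos 1 one_pos), Sc_of_Prd hK hP (hpos c₁ hc₁)] at this
  have hC₂ : ∀ p, p ∈ Co g ↔ U₂ p ∈ Co g := by
    intro p
    have := hU₂C p
    rwa [Sc_of_Prd hK hP (hpos 1 one_pos), Sc_of_Prd hK hP (hpos c₂ hc₂)] at this
  -- translation of the types
  have tV : ∀ {O U : Sp ℝ ≃ₗᵢ[ℝ] Sp ℝ} {τ : Sp ℝ} {a b : ℝ}, Rel O τ (Gf δ g a) (Gf δ g b) →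
      ((∀ p, U p = O p) ∨ (∀ p, U p = -(O p))) → U ev = ev → Vt δ g a b := by
    intro O U τ a b hr hUO hv
    refine ⟨O, τ, hr, ?_⟩
    rcases hUO with h | h
    · left; rw [← h, hv]
    · right
      have h3 := h ev
      rw [hv] at h3
      exact (neg_eq_iff_eq_neg.2 h3).symm
  have tH : ∀ {O U : Sp ℝ ≃ₗᵢ[ℝ] Sp ℝ} {τ : Sp ℝ} {a b : ℝ}, Rel O τ (Gf δ g a) (Gf δ g b) →
      ((∀ p, U p = O p) ∨ (∀ p, U p = -(O p))) → (U.symm ev).snd = 0 → Ht δ g a b := by
    intro O U τ a b hr hUO hv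
    refine ⟨O, τ, hr, ?_⟩
    rcases hUO with h | h
    · have : O.symm ev = U.symm ev := by
        rw [LinearIsometryEquiv.symm_apply_eq, ← h]; simp
      rw [this, hv]
    · have : O.symm ev = -(U.symm ev) := by
        rw [LinearIsometryEquiv.symm_apply_eq, map_neg, ← h]; simp
      rw [this, snd_neg, hv, neg_zero]
  have hE1 := hE _ hK hP hpt U₁ hC₁
  have hE2 := hE _ hK hP hpt U₂ hC₂
  have end01 := fun hv hvh => endgame hQ2 hQ3 hQ4 hQ5 hg (δ := δ) one_pos hc₁ hc₂ (Ne.symm h11)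
    (Ne.symm h21) h12 hv hvh
  have end02 := fun hv hvh => endgame hQ2 hQ3 hQ4 hQ5 hg (δ := δ) one_pos hc₂ hc₁ (Ne.symm h21)
    (Ne.symm h11) (Ne.symm h12) hv hvh
  rcases hE1 with h1 | h1
  · rcases hE2 with h2 | h2
    · exact end01 (tV hr1 hU₁O h1) (Or.inl (tV hr2 hU₂O h2))
    · exact end01 (tV hr1 hU₁O h1) (Or.inr (tH hr2 hU₂O h2))
  · rcases hE2 with h2 | h2
    · exact end02 (tV hr2 hU₂O h2) (Or.inr (tH hr1 hU₁O h1))
    · -- both horizontal
      have hN : U₁.symm ev = U₂.symm ev := by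
        have m1 : U₁.symm ev ∈ Co g := by
          rw [hC₁, LinearIsometryEquiv.apply_symm_apply]; exact ev_mem_Co g
        have m2 : U₂.symm ev ∈ Co g := by
          rw [hC₂, LinearIsometryEquiv.apply_symm_apply]; exact ev_mem_Co g
        have hab : ∀ q : Sp ℝ, q.snd = 0 → ‖q‖ = 1 → q.fst = 1 ∨ q.fst = -1 := by
          intro q hq hn
          have h3 : ‖q‖ ^ 2 = q.fst ^ 2 := by
            rw [← real_inner_self_eq_norm_sq, inner_sp, hq, mul_zero, add_zero,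
              real_inner_self_eq_norm_sq, Real.norm_eq_abs, sq_abs]
          rw [hn, one_pow] at h3
          have h4 : (q.fst - 1) * (q.fst + 1) = 0 := by linear_combination -h3
          rcases mul_eq_zero.1 h4 with h5 | h5
          · left; linarith
          · right; linarith
        have a1 := hab _ h1 (by rw [LinearIsometryEquiv.norm_map, norm_ev])
        have a2 := hab _ h2 (by rw [LinearIsometryEquiv.norm_map, norm_ev])
        have key : ∀ p q : Sp ℝ, p ∈ Co g → q ∈ Co g → p.snd = 0 → q.snd = 0 → p.fst = -q.fst →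
            ‖p‖ = 1 → False := by
          intro p q hp hq hp0 hq0 hpq hn
          have e : -p = q := by
            apply ext'
            · rw [fst_neg, hpq, neg_neg]
            · rw [snd_neg, hp0, hq0, neg_zero]
          have := hpt p hp (by rw [e]; exact hq)
          rw [this, norm_zero] at hn
          exact zero_ne_one hn
        rcases a1 with a1 | a1 <;> rcases a2 with a2 | a2
        · exact ext' (a1.trans a2.symm) (h1.trans h2.symm)
        · exact (key _ _ m1 m2 h1 h2 (by rw [a1, a2, neg_neg])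
            (by rw [LinearIsometryEquiv.norm_map, norm_ev])).elim
        · exact (key _ _ m1 m2 h1 h2 (by rw [a1, a2])
            (by rw [LinearIsometryEquiv.norm_map, norm_ev])).elim
        · exact ext' (a1.trans a2.symm) (h1.trans h2.symm)
      have hv12 : Vt δ g c₁ c₂ := by
        refine ⟨O₁.symm.trans O₂, _, hr1.symm.trans hr2, ?_⟩
        rw [LinearIsometryEquiv.trans_apply]
        have e1 : O₁.symm ev = U₁.symm ev ∨ O₁.symm ev = -(U₁.symm ev) := by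
          rcases hU₁O with h | h
          · left; rw [LinearIsometryEquiv.symm_apply_eq, ← h]; simp
          · right
            rw [LinearIsometryEquiv.symm_apply_eq, map_neg, ← h]; simp
        have e2 : O₂ (U₁.symm ev) = ev ∨ O₂ (U₁.symm ev) = -ev := by
          rw [hN]
          rcases hU₂O with h | h
          · left; rw [← h]; simp
          · right
            have h3 := h (U₂.symm ev)
            rw [LinearIsometryEquiv.apply_symm_apply] at h3
            exact (neg_eq_iff_eq_neg.2 h3).symm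
        rcases e1 with e1 | e1
        · rw [e1]; exact e2
        · rw [e1, map_neg]
          rcases e2 with e2 | e2
          · right; rw [e2]
          · left; rw [e2, neg_neg]
      exact endgame hQ2 hQ3 hQ4 hQ5 hg (δ := δ) hc₁ hc₂ one_pos h12 h11 h21 hv12
        (Or.inr (tH hr1 hU₁O h1).symm)

end Pool.Agent.Q76.H2
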