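import Pool.Agent.Q76.H2.Asm3

set_option autoImplicit false
set_option linter.unusedSectionVars false

open Set Filter Topology MeasureTheory

namespace Pool.Agent.Q76.H2

open Pool.Agent.Q76.HR

variable {F : Type} [NormedAddCommGroup F] [InnerProductSpace ℝ F] [FiniteDimensional ℝ F]
  [MeasurableSpace F] [BorelSpace F]

/-- A unit vector orthogonal to a given unit vector in a two-dimensional space. -/
lemma exists_orth (h2 : Module.finrank ℝ F = 2) {e : F} (he : ‖e‖ = 1) :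
    ∃ m : F, ‖m‖ = 1 ∧ inner ℝ e m = 0 := by
  have he0 : e ≠ 0 := by
    rintro rfl
    rw [norm_zero] at he
    exact zero_ne_one he
  have hr : Module.finrank ℝ (ℝ ∙ e)ᗮ = 1 := by
    have h3 := Submodule.finrank_add_finrank_orthogonal (ℝ ∙ e)
    rw [finrank_span_singleton he0, h2] at h3
    omega
  have hpos : 0 < Module.finrank ℝ (ℝ ∙ e)ᗮ := by rw [hr]; exact one_pos
  haveI := Module.nontrivial_of_finrank_pos hpos
  obtain ⟨v, hv⟩ := exists_ne (0 : (ℝ ∙ e)ᗮ)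
  have hv' : (v : F) ≠ 0 := fun h => hv (Subtype.ext h)
  refine ⟨(‖(v : F)‖)⁻¹ • (v : F), ?_, ?_⟩
  · rw [norm_smul, norm_inv, norm_norm, inv_mul_cancel₀ (norm_ne_zero_iff.2 hv')]
  · have h4 := v.2
    rw [Submodule.mem_orthogonal_singleton_iff_inner_right] at h4
    rw [real_inner_smul_right, h4, mul_zero]

/-- **Main theorem**, conditional form. -/
theorem main_of (hU : S_U) (hW : S_W F) (hC : S_C F) (hV : S_V F) (hI : S_I F) (hD : S_D F)
    (hE : S_E F) (hO1 : S_O1 F) (hO2 : S_O2 F) (hPl : S_P F)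
    (hW' : S_W ℝ) (hC' : S_C ℝ) (hV' : S_V ℝ) (hI' : S_I ℝ) (hD' : S_D ℝ) (hE' : S_E ℝ)
    (hQ2 : S_Q2) (hQ3 : S_Q3) (hQ4 : S_Q4) (hQ5 : S_Q5)
    (h2 : Module.finrank ℝ F = 2) {f : F → ℝ} (hf : Continuous f) {c₁ c₂ : ℝ} (hc₁ : 0 < c₁)
    (hc₂ : 0 < c₂) (h11 : c₁ ≠ 1) (h21 : c₂ ≠ 1) (h12 : c₁ ≠ c₂)
    {O₁ O₂ : Sp F ≃ₗᵢ[ℝ] Sp F} {τ₁ τ₂ : Sp F} (hr1 : Rel O₁ τ₁ f (sc f c₁))
    (hr2 : Rel O₂ τ₂ f (sc f c₂)) : ∃ L : F →ₗ[ℝ] ℝ, ∀ x, f x = f 0 + L x := by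
  have hK := Cn_Co hf
  obtain ⟨U₁, hU₁O, hU₁C, -⟩ := hr1.exists_sign hf (sc_cont hf c₁)
  obtain ⟨U₂, hU₂O, hU₂C, -⟩ := hr2.exists_sign hf (sc_cont hf c₂)
  have hS1 : Sc (Co f) 1 = Co f := by
    ext p
    change pt ((1:ℝ) • p.fst) p.snd ∈ Co f ↔ p ∈ Co f
    rw [one_smul]
    exact Iff.rfl
  rw [Co_sc_eq hc₁] at hU₁C
  rw [Co_sc_eq hc₂] at hU₂C
  -- the case of a nontrivial translation
  have lin : ∀ q : Sp F, q ∈ La f → q ≠ 0 → ∃ L : F →ₗ[ℝ] ℝ, ∀ x, f x = f 0 + L x := by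
    intro q hq hq0
    have hq1 : q.fst ≠ 0 := by
      intro h
      have hs : q.snd ≠ 0 := fun hs => hq0 (ext' h hs)
      have h1 := (La f).smul_mem (q.snd)⁻¹ hq
      have e : (q.snd)⁻¹ • q = ev := by
        apply ext'
        · simp [h]
        · simp [hs]
      rw [e] at h1
      exact ev_not_mem_La f h1
    set e : F := (‖q.fst‖)⁻¹ • q.fst with he
    set δ : ℝ := (‖q.fst‖)⁻¹ * q.snd with hδ
    have hen : ‖e‖ = 1 := by
      rw [he, norm_smul, norm_inv, norm_norm, inv_mul_cancel₀ (norm_ne_zero_iff.2 hq1)]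
    have hLa : pt e δ ∈ La f := by
      have h1 := (La f).smul_mem (‖q.fst‖)⁻¹ hq
      exact h1
    obtain ⟨m, hm, hem⟩ := exists_orth h2 hen
    have hex := expand h2 hen hm hem
    by_contra hna
    obtain ⟨O₁', τ₁', hr1'⟩ := hPl f hf e m hen hm hem hex δ hLa hna c₁ hc₁ O₁ τ₁ hr1
    obtain ⟨O₂', τ₂', hr2'⟩ := hPl f hf e m hen hm hem hex δ hLa hna c₂ hc₂ O₂ τ₂ hr2
    set g : ℝ → ℝ := fun s => f (s • m) with hg
    have hgc : Continuous g := hf.comp (continuous_id.smul continuous_const)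
    have e1 : (fun s : ℝ => kap δ 1 * f (s • m)) = Gf δ g 1 := by
      funext s; simp [Gf, hg]
    rw [e1] at hr1' hr2'
    obtain ⟨σ, hσ⟩ := planar hU hW' hC' hV' hI' hD' hE' hQ2 hQ3 hQ4 hQ5 hgc hc₁ hc₂ h11 h21 h12
      hr1' hr2'
    apply hna
    have hfx : ∀ x, f x = f 0 + (σ * inner ℝ m x + δ * inner ℝ e x) := by
      intro x
      have h3 := hLa (inner ℝ m x • m) (inner ℝ e x)
      simp only [pt_fst, pt_snd] at h3
      have h4 := hσ (inner ℝ m x)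
      simp only [hg, zero_smul] at h4
      nth_rewrite 1 [hex x]
      rw [add_comm (inner ℝ e x • e), h3, h4]
      ring
    refine ⟨{ toFun := fun x => σ * inner ℝ m x + δ * inner ℝ e x
              map_add' := ?_
              map_smul' := ?_ }, hfx⟩
    · intro x y
      rw [inner_add_right, inner_add_right]; ring
    · intro r x
      rw [real_inner_smul_right, real_inner_smul_right]
      simp only [RingHom.id_apply, smul_eq_mul]; ring
  rcases measA hU hW hC hV hI hD hK one_pos hc₁ hc₂ (Ne.symm h11) (Ne.symm h21) h12 U₁ U₂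
    (by rw [hS1]; exact hU₁C) (by rw [hS1]; exact hU₂C) with ⟨e, d, he, h1, h2'⟩ | hP
  · have h3 : -(pt e d) = pt (-e) (-d) := ext' rfl rfl
    refine lin _ (mem_La_of_Co h1 (by rw [h3]; exact h2')) ?_
    intro h4
    apply he
    have := congrArg (fun q : Sp F => q.fst) h4
    exact this
  by_cases hpt : ∀ q ∈ Co f, -q ∈ Co f → q = 0
  · exact prodcase hE hO1 hO2 h2 hf hP hpt hc₁ hc₂ h11 h21 h12 hr1 hr2
  · push Not at hpt
    obtain ⟨q, h1, h2', h3⟩ := hpt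
    exact lin q (mem_La_of_Co h1 h2') h3

end Pool.Agent.Q76.H2
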