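import Pool.Agent.Q76.HR.Main

set_option autoImplicit false

open Set Filter Topology MeasureTheory

namespace Pool.Agent.Q76.H2

open Pool.Agent.Q76.HR

section cones

variable {F : Type*} [NormedAddCommGroup F] [InnerProductSpace ℝ F]

/-- The cone `K` after a scaling of the horizontal part. -/
def Sc (K : Set (Sp F)) (c : ℝ) : Set (Sp F) := {p | pt (c • p.fst) p.snd ∈ K}

/-- The slopes of the linear functions below `K`. -/
def Pd (K : Set (Sp F)) : Set F := {p | ∀ q ∈ K, inner ℝ p q.fst ≤ q.snd}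

/-- Closed convex cones which contain the upward vertical direction but not the downward one. -/
structure Cn (K : Set (Sp F)) : Prop where
  closed : IsClosed K
  add : ∀ p ∈ K, ∀ q ∈ K, p + q ∈ K
  smul : ∀ p ∈ K, ∀ r : ℝ, 0 ≤ r → r • p ∈ K
  ev_mem : ev ∈ K
  neg_ev : -ev ∉ K

/-- `K` is the product of a horizontal cone and the upward vertical half-line. -/
def Prd (K : Set (Sp F)) : Prop := ∀ q ∈ K, 0 ≤ q.snd ∧ pt q.fst 0 ∈ K

end cones

section measure

variable {F : Type*} [NormedAddCommGroup F] [InnerProductSpace ℝ F] [FiniteDimensional ℝ F]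
  [MeasurableSpace F] [BorelSpace F]

/-- The Gaussian integral over `t P`. -/
noncomputable def wG (P : Set F) (t : ℝ) : ℝ :=
  ∫ x in {x : F | t⁻¹ • x ∈ P}, Real.exp (-‖x‖ ^ 2)

/-- The Gaussian integral over the dual cone. -/
noncomputable def Vd (K : Set (Sp F)) : ℝ :=
  ∫ x in {x : Sp F | ∀ q ∈ K, 0 ≤ inner ℝ x q}, Real.exp (-‖x‖ ^ 2)

end measure

end Pool.Agent.Q76.H2
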