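import Pool.Agent.Q76.H2.Stm

set_option autoImplicit false

open Set Filter Topology MeasureTheory

namespace Pool.Agent.Q76.H2

open Pool.Agent.Q76.HR

section

variable {F : Type} [NormedAddCommGroup F] [InnerProductSpace ℝ F] [FiniteDimensional ℝ F]
  [MeasurableSpace F] [BorelSpace F]

lemma gauss_int : Integrable (fun x : F => Real.exp (-‖x‖ ^ 2)) := by
  have h := GaussianFourier.integrable_cexp_neg_mul_sq_norm_add (V := F) (b := 1) (by simp) 0 0
  have h2 := h.re
  refine h2.congr (Eventually.of_forall fun x => ?_)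
  simp only [zero_mul, add_zero, neg_mul, one_mul]
  have e : -((‖x‖ : ℂ) ^ 2) = ((-‖x‖ ^ 2 : ℝ) : ℂ) := by push_cast; ring
  rw [e]
  exact Complex.exp_ofReal_re _

lemma meas_dil {P : Set F} (hP : IsClosed P) (t : ℝ) : MeasurableSet {x : F | t⁻¹ • x ∈ P} :=
  (hP.preimage (continuous_const_smul t⁻¹)).measurableSet

theorem jobC' : S_C F := by
  intro P hc hcl hconst
  by_cases h0 : volume P = 0
  · exact Or.inl h0
  right
  -- the interior is nonempty
  have hint : (interior P).Nonempty := by
    by_contra hne
    rw [not_nonempty_iff_eq_empty] at hne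
    apply h0
    have h1 : P ⊆ frontier P := by
      intro x hx
      rw [frontier, hne, diff_empty]
      exact subset_closure hx
    exact measure_mono_null h1 (hc.addHaar_frontier volume)
  -- zero belongs to `P`
  have hz : (0 : F) ∈ P := by
    by_contra hz
    have hlim : Tendsto (fun n : ℕ => wG P ((n : ℝ) + 1)) atTop (𝓝 (∫ _ in (univ : Set F), (0:ℝ))) := by
      have e : ∀ n : ℕ, wG P ((n : ℝ) + 1) =
          ∫ x : F, ({x : F | ((n : ℝ) + 1)⁻¹ • x ∈ P}.indicator (fun x => Real.exp (-‖x‖ ^ 2))) x := by
        intro n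
        unfold wG
        rw [integral_indicator (meas_dil hcl _)]
      simp only [e]
      rw [Measure.restrict_univ]
      refine tendsto_integral_of_dominated_convergence (fun x : F => Real.exp (-‖x‖ ^ 2)) ?_
        gauss_int ?_ ?_
      · intro n
        exact (gauss_int.aestronglyMeasurable).indicator (meas_dil hcl _)
      · intro n
        refine Eventually.of_forall fun x => ?_
        refine (norm_indicator_le_norm_self _ _).trans ?_
        rw [Real.norm_eq_abs, abs_of_pos (Real.exp_pos _)]
      · refine Eventually.of_forall fun x => ?_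
        have h1 : Tendsto (fun n : ℕ => ((n : ℝ) + 1)⁻¹ • x) atTop (𝓝 ((0:ℝ) • x)) := by
          have := tendsto_one_div_add_atTop_nhds_zero_nat (𝕜 := ℝ)
          simp only [one_div] at this
          exact this.smul_const x
        rw [zero_smul] at h1
        have h2 : ∀ᶠ n : ℕ in atTop, ((n : ℝ) + 1)⁻¹ • x ∈ Pᶜ :=
          h1.eventually (hcl.isOpen_compl.mem_nhds hz)
        refine tendsto_const_nhds.congr' ?_
        filter_upwards [h2] with n hn
        rw [indicator_of_notMem]
        exact hn
    rw [integral_zero] at hlim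
    have h3 : ∀ n : ℕ, wG P ((n : ℝ) + 1) = wG P 1 := fun n => hconst _ _ (by positivity) one_pos
    simp only [h3] at hlim
    have h4 : wG P 1 = 0 := tendsto_nhds_unique tendsto_const_nhds hlim
    have h5 : wG P 1 = ∫ x in P, Real.exp (-‖x‖ ^ 2) := by
      unfold wG; simp
    rw [h5] at h4
    have h6 := (setIntegral_eq_zero_iff_of_nonneg_ae
      (Eventually.of_forall fun x : F => (Real.exp_pos (-‖x‖ ^ 2)).le) gauss_int.integrableOn).1 h4
    have h7 : ∀ᵐ x ∂(volume.restrict P), False := by
      filter_upwards [h6] with x hx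
      exact (Real.exp_pos _).ne' hx
    rw [ae_iff] at h7
    simp only [not_false_eq_true, setOf_true] at h7
    rw [Measure.restrict_apply_univ] at h7
    exact h0 h7
  -- the main argument
  intro p hp s hs
  rcases le_or_gt s 1 with h1 | h1
  · have := hc hp hz hs (sub_nonneg.2 h1) (by ring)
    simpa using this
  by_contra hn
  have hs0 : 0 < s := one_pos.trans h1
  -- monotonicity
  have hsub : P ⊆ {x : F | s⁻¹ • x ∈ P} := by
    intro x hx
    have := hc hx hz (inv_nonneg.2 hs0.le) (sub_nonneg.2 (inv_le_one_of_one_le₀ h1.le)) (by ring)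
    simpa using this
  -- the open set
  set G : Set F := {x : F | s⁻¹ • x ∈ interior P} ∩ Pᶜ with hG
  have hGo : IsOpen G := (isOpen_interior.preimage (continuous_const_smul s⁻¹)).inter
    hcl.isOpen_compl
  have hGn : G.Nonempty := by
    have h2 : p ∈ closure (interior P) := by
      rw [hc.closure_interior_eq_closure_of_nonempty_interior hint]
      exact subset_closure hp
    have h3 : {y : F | s • y ∈ Pᶜ} ∈ 𝓝 p :=
      (hcl.isOpen_compl.preimage (continuous_const_smul s)).mem_nhds hn
    obtain ⟨y, hy, hyi⟩ := mem_closure_iff_nhds.1 h2 _ h3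
    refine ⟨s • y, ?_, hy⟩
    change s⁻¹ • s • y ∈ interior P
    rw [smul_smul, inv_mul_cancel₀ hs0.ne', one_smul]
    exact hyi
  have hGpos : 0 < volume G := hGo.measure_pos volume hGn
  have hdis : Disjoint P G := by
    rw [Set.disjoint_left]
    intro x hx hxG
    exact hxG.2 hx
  have hsub2 : P ∪ G ⊆ {x : F | s⁻¹ • x ∈ P} := by
    refine union_subset hsub fun x hx => ?_
    exact interior_subset (s := P) hx.1
  have e1 : wG P 1 = ∫ x in P, Real.exp (-‖x‖ ^ 2) := by
    unfold wG; simp
  have e2 : (∫ x in P, Real.exp (-‖x‖ ^ 2)) + ∫ x in G, Real.exp (-‖x‖ ^ 2) ≤ wG P s := by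
    rw [← setIntegral_union hdis hGo.measurableSet gauss_int.integrableOn gauss_int.integrableOn]
    exact setIntegral_mono_set gauss_int.integrableOn
      (Eventually.of_forall fun x : F => (Real.exp_pos (-‖x‖ ^ 2)).le) (Eventually.of_forall hsub2)
  have e3 : 0 < ∫ x in G, Real.exp (-‖x‖ ^ 2) := by
    rw [setIntegral_pos_iff_support_of_nonneg_ae
      (Eventually.of_forall fun x : F => (Real.exp_pos (-‖x‖ ^ 2)).le) gauss_int.integrableOn]
    have : Function.support (fun x : F => Real.exp (-‖x‖ ^ 2)) = univ := by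
      ext x
      simp [(Real.exp_pos _).ne']
    rw [this, univ_inter]
    exact hGpos
  have e4 := hconst s 1 hs0 one_pos
  linarith

end

theorem jobC (F : Type) [NormedAddCommGroup F] [InnerProductSpace ℝ F] [FiniteDimensional ℝ F]
    [MeasurableSpace F] [BorelSpace F] : S_C F := jobC'

end Pool.Agent.Q76.H2
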