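import Pool.Agent.Q76.H2.Stm

set_option autoImplicit false

open Set Filter Topology MeasureTheory

namespace Pool.Agent.Q76.H2

open Pool.Agent.Q76.HR

theorem jobI (F : Type) [NormedAddCommGroup F] [InnerProductSpace ℝ F] [FiniteDimensional ℝ F]
    [MeasurableSpace F] [BorelSpace F] : S_I F := by
  intro K K' U hU
  unfold Vd
  have h1 : {x : Sp F | ∀ q ∈ K, 0 ≤ inner ℝ x q} = U ⁻¹' {x : Sp F | ∀ q ∈ K', 0 ≤ inner ℝ x q} := by
    ext x
    simp only [Set.mem_ofPred_eq, Set.mem_preimage]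
    constructor
    · intro h q hq
      have := h (U.symm q) (by rw [hU, LinearIsometryEquiv.apply_symm_apply]; exact hq)
      rwa [← U.inner_map_map, LinearIsometryEquiv.apply_symm_apply] at this
    · intro h q hq
      have := h (U q) ((hU q).1 hq)
      rwa [U.inner_map_map] at this
  have hmp := U.measurePreserving
  have hemb : MeasurableEmbedding U := U.toHomeomorph.measurableEmbedding
  have h2 := hmp.setIntegral_preimage_emb hemb (fun x : Sp F => Real.exp (-‖x‖ ^ 2))
    {x : Sp F | ∀ q ∈ K', 0 ≤ inner ℝ x q}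
  rw [h1, ← h2]
  simp only [LinearIsometryEquiv.norm_map]

theorem jobE (F : Type) [NormedAddCommGroup F] [InnerProductSpace ℝ F] [FiniteDimensional ℝ F] :
    S_E F := by
  intro K hK hP hpt U hU
  by_cases ht : (U.symm ev).snd = 0
  · exact Or.inr ht
  left
  have hN : U.symm ev ∈ K := by rw [hU, LinearIsometryEquiv.apply_symm_apply]; exact hK.ev_mem
  have ht0 : 0 < (U.symm ev).snd := lt_of_le_of_ne (hP _ hN).1 (Ne.symm ht)
  set t := (U.symm ev).snd with htd
  have hw : pt (U.symm ev).fst 0 ∈ K := (hP _ hN).2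
  have e1 : U.symm ev = pt (U.symm ev).fst 0 + t • ev := by
    apply ext' <;> simp [htd]
  have e2 : (ev : Sp F) = U (pt (U.symm ev).fst 0) + t • U ev := by
    have := congrArg U e1
    rwa [LinearIsometryEquiv.apply_symm_apply, map_add, map_smul] at this
  have hUw : U (pt (U.symm ev).fst 0) ∈ K := (hU _).1 hw
  have hUe : U ev ∈ K := (hU _).1 hK.ev_mem
  have hte : t • U ev ∈ K := hK.smul _ hUe _ ht0.le
  have hf : (U (pt (U.symm ev).fst 0)).fst + (t • U ev).fst = 0 := by
    rw [← fst_add, ← e2, ev_fst]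
  have h1 : pt (t • U ev).fst 0 ∈ K := (hP _ hte).2
  have h2 : -(pt (t • U ev).fst 0) ∈ K := by
    have h3 := (hP _ hUw).2
    have e3 : pt (U (pt (U.symm ev).fst 0)).fst 0 = -(pt (t • U ev).fst 0) := by
      apply ext'
      · simp only [pt_fst, fst_neg]
        exact eq_neg_of_add_eq_zero_left hf
      · simp
    rwa [e3] at h3
  have h4 : (t • U ev).fst = 0 := by
    have := congrArg (fun q : Sp F => q.fst) (hpt _ h1 h2)
    exact this
  have h5 : (U ev).fst = 0 := by
    rw [fst_smul] at h4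
    exact (smul_eq_zero.1 h4).resolve_left ht0.ne'
  have h6 : ‖U ev‖ = 1 := by rw [LinearIsometryEquiv.norm_map, norm_ev]
  have h7 : ‖U ev‖ ^ 2 = (U ev).snd ^ 2 := by
    rw [← real_inner_self_eq_norm_sq, inner_sp, h5, inner_zero_left, zero_add, sq]
  have h8 : 0 ≤ (U ev).snd := (hP _ hUe).1
  have h9 : (U ev).snd = 1 := by
    rw [h6, one_pow] at h7
    nlinarith
  exact ext' (by rw [h5]; rfl) (by rw [h9]; rfl)

theorem jobO1 (F : Type) [NormedAddCommGroup F] [InnerProductSpace ℝ F] [FiniteDimensional ℝ F] :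
    S_O1 F := by
  intro n₁ n₂ h₁ h₂ h₁₂ hex U hU hU1
  have hev : inner ℝ n₁ (ev : Sp F).fst = 0 := by simp
  have i11 : inner ℝ n₁ n₁ = 1 := by rw [real_inner_self_eq_norm_sq, h₁, one_pow]
  have i22 : inner ℝ n₂ n₂ = 1 := by rw [real_inner_self_eq_norm_sq, h₂, one_pow]
  have i21 : inner ℝ n₂ n₁ = 0 := by rw [real_inner_comm, h₁₂]
  have hexp : ∀ p : Sp F, p.snd = 0 → p = inner ℝ n₁ p.fst • pt n₁ 0 + inner ℝ n₂ p.fst • pt n₂ 0 := by
    intro p hp
    apply ext'
    · simp only [fst_add, fst_smul, pt_fst]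
      exact hex p.fst
    · simp [hp]
  have hin : ∀ p : Sp F, p.snd = inner ℝ p (U (pt n₁ 0)) := by
    intro p; rw [hU1, inner_ev]
  have e0 : (U ev).snd = 0 := by
    rw [hin, U.inner_map_map, inner_sp]; simp
  have e2 : (U (pt n₂ 0)).snd = 0 := by
    rw [hin, U.inner_map_map, inner_sp]; simp [i21]
  obtain ⟨a1, a2, -⟩ := (hU ev).1 ⟨by simp, by simp, by simp⟩
  obtain ⟨b1, b2, -⟩ := (hU (pt n₂ 0)).1 ⟨by simp [h₁₂], by simp [i22], by simp⟩
  set α := inner ℝ n₁ (U ev).fst with hα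
  set β := inner ℝ n₂ (U ev).fst with hβ
  set γ := inner ℝ n₁ (U (pt n₂ 0)).fst with hγ
  set ε := inner ℝ n₂ (U (pt n₂ 0)).fst with hε
  have x0 : U ev = α • pt n₁ 0 + β • pt n₂ 0 := hexp _ e0
  have x2 : U (pt n₂ 0) = γ • pt n₁ 0 + ε • pt n₂ 0 := hexp _ e2
  have innerp : ∀ a b c d : ℝ, inner ℝ (a • pt n₁ 0 + b • pt n₂ 0 : Sp F) (c • pt n₁ 0 + d • pt n₂ 0) =
      a * c + b * d := by
    intro a b c d
    rw [inner_sp]
    simp only [fst_add, fst_smul, pt_fst, snd_add, snd_smul, pt_snd, mul_zero, add_zero,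
      inner_add_left, inner_add_right, real_inner_smul_left, real_inner_smul_right, i11, i22, i21,
      h₁₂]
    ring
  have q0 : α * α + β * β = 1 := by
    rw [← innerp, ← x0, U.inner_map_map, real_inner_self_eq_norm_sq, norm_ev, one_pow]
  have q2 : γ * γ + ε * ε = 1 := by
    rw [← innerp, ← x2, U.inner_map_map, inner_sp]; simp [h₂]
  have q02 : α * γ + β * ε = 0 := by
    rw [← innerp, ← x0, ← x2, U.inner_map_map, inner_sp]; simp
  have p1 : 0 ≤ α * γ := mul_nonneg a1 b1
  have p2 : 0 ≤ β * ε := mul_nonneg a2 b2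
  have z1 : α * γ = 0 := by linarith
  have z2 : β * ε = 0 := by linarith
  rcases mul_eq_zero.1 z1 with h | h
  · right
    have hb : β = 1 := by
      rw [h] at q0; nlinarith
    have he : ε = 0 := by
      rw [hb] at z2; linarith
    have hg : γ = 1 := by
      rw [he] at q2; nlinarith
    rw [x0, x2, h, hb, he, hg]
    simp
  · left
    have he : ε = 1 := by
      rw [h] at q2; nlinarith
    have hb : β = 0 := by
      rw [he] at z2; linarith
    have ha : α = 1 := by
      rw [hb] at q0; nlinarith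
    rw [x0, x2, h, hb, he, ha]
    simp

end Pool.Agent.Q76.H2
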