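import Pool.Agent.Q76.H2.Stm

set_option autoImplicit false

open Set Filter Topology MeasureTheory

namespace Pool.Agent.Q76.H2

open Pool.Agent.Q76.HR

/-- A continuous function whose oscillations are not diminished by a contraction is constant. -/
lemma const_contr {Y : Type} [MetricSpace Y] [CompleteSpace Y] [Nonempty Y] {g : Y → ℝ}
    (hg : Continuous g) {S : Y → Y} {ρ β : ℝ} (h0 : 0 ≤ ρ) (h1 : ρ < 1)
    (hS : ∀ a b, dist (S a) (S b) ≤ ρ * dist a b) (hb : 1 ≤ β)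
    (hgS : ∀ a b, |g (S a) - g (S b)| = β * |g a - g b|) : ∀ a b, g a = g b := by
  have hc : ContractingWith ⟨ρ, h0⟩ S :=
    ⟨by exact_mod_cast h1, LipschitzWith.of_dist_le_mul fun a b => hS a b⟩
  set z := hc.fixedPoint S with hz
  have hzf : S z = z := hc.fixedPoint_isFixedPt
  have key : ∀ a, g a = g z := by
    intro a
    have hzn : ∀ n, S^[n] z = z := fun n => Function.iterate_fixed hzf n
    have hlim : Tendsto (fun n => S^[n] a) atTop (𝓝 z) := hc.tendsto_iterate_fixedPoint a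
    have hlim2 : Tendsto (fun n => |g (S^[n] a) - g z|) atTop (𝓝 |g z - g z|) :=
      (((hg.tendsto z).comp hlim).sub_const _).abs
    rw [sub_self, abs_zero] at hlim2
    have hge : ∀ n, |g a - g z| ≤ |g (S^[n] a) - g z| := by
      intro n
      have h3 := iter_val hgS n a z
      rw [hzn] at h3
      rw [h3]
      exact le_mul_of_one_le_left (abs_nonneg _) (one_le_pow₀ hb)
    have h4 : |g a - g z| ≤ 0 := ge_of_tendsto' hlim2 hge
    have h5 : |g a - g z| = 0 := le_antisymm h4 (abs_nonneg _)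
    linarith [abs_eq_zero.1 h5]
  intro a b
  rw [key a, key b]

lemma o3_core {F : Type} [NormedAddCommGroup F] [InnerProductSpace ℝ F] [FiniteDimensional ℝ F]
    {f : F → ℝ} (hf : Continuous f) {n₁ n₂ : F} (h₁ : ‖n₁‖ = 1) (h₂ : ‖n₂‖ = 1)
    (h₁₂ : inner ℝ n₁ n₂ = 0) (hex : ∀ x : F, x = inner ℝ n₁ x • n₁ + inner ℝ n₂ x • n₂)
    {W : Sp F ≃ᵃ[ℝ] Sp F} {ρ₁ ρ₂ β : ℝ} (hW : ∀ p, p ∈ Gr f → W p ∈ Gr f)
    (w1 : W.linear (pt n₁ 0) = ρ₁ • pt n₁ 0) (w2 : W.linear (pt n₂ 0) = ρ₂ • pt n₂ 0)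
    (w0 : W.linear ev = β • ev) (p1 : 0 < ρ₁) (p1' : ρ₁ < 1) (p2 : 0 < ρ₂) (p2' : ρ₂ < 1)
    (pb : 1 ≤ β) : ∀ x y, f x = f y := by
  set S : F → F := fun x => (ρ₁ * inner ℝ n₁ x) • n₁ + (ρ₂ * inner ℝ n₂ x) • n₂ + (W 0).fst with hS
  have key : ∀ x, f (S x) = β * f x + (W 0).snd := by
    intro x
    have h3 : pt x (f x) ∈ Gr f := rfl
    have h4 := hW _ h3
    have e1 : pt x (f x) = inner ℝ n₁ x • pt n₁ 0 + inner ℝ n₂ x • pt n₂ 0 + f x • ev := by
      apply ext'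
      · simp only [fst_add, fst_smul, pt_fst, ev_fst, smul_zero, add_zero]
        exact hex x
      · simp
    have e2 : W (pt x (f x)) = W.linear (pt x (f x)) + W 0 := by
      have := W.map_vadd 0 (pt x (f x))
      simpa using this
    rw [e2, e1, map_add, map_add, map_smul, map_smul, map_smul, w1, w2, w0] at h4
    simp only [Gr, Set.mem_ofPred_eq, fst_add, snd_add, fst_smul, snd_smul, pt_fst, pt_snd, ev_fst,
      ev_snd, mul_zero, zero_add, mul_one, smul_zero, add_zero, smul_smul] at h4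
    simp only [hS]
    rw [mul_comm ρ₁, mul_comm ρ₂, ← h4]
    ring
  set ρ := max ρ₁ ρ₂ with hρ
  have hρ0 : 0 ≤ ρ := p1.le.trans (le_max_left _ _)
  have hρ1 : ρ < 1 := max_lt p1' p2'
  have i11 : inner ℝ n₁ n₁ = 1 := by rw [real_inner_self_eq_norm_sq, h₁, one_pow]
  have i22 : inner ℝ n₂ n₂ = 1 := by rw [real_inner_self_eq_norm_sq, h₂, one_pow]
  have i21 : inner ℝ n₂ n₁ = 0 := by rw [real_inner_comm, h₁₂]
  have hns : ∀ a b : ℝ, ‖a • n₁ + b • n₂‖ ^ 2 = a ^ 2 + b ^ 2 := by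
    intro a b
    rw [← real_inner_self_eq_norm_sq]
    simp only [inner_add_left, inner_add_right, real_inner_smul_left, real_inner_smul_right, i11,
      i22, i21, h₁₂]
    ring
  refine const_contr hf (S := S) hρ0 hρ1 ?_ pb ?_
  · intro x y
    rw [dist_eq_norm, dist_eq_norm]
    have e : S x - S y = (ρ₁ * inner ℝ n₁ (x - y)) • n₁ + (ρ₂ * inner ℝ n₂ (x - y)) • n₂ := by
      simp only [hS, inner_sub_right, mul_sub, sub_smul]
      abel
    have h5 : ‖S x - S y‖ ^ 2 ≤ (ρ * ‖x - y‖) ^ 2 := by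
      rw [e, hns]
      have h6 : ‖x - y‖ ^ 2 = inner ℝ n₁ (x - y) ^ 2 + inner ℝ n₂ (x - y) ^ 2 := by
        conv_lhs => rw [hex (x - y)]
        exact hns _ _
      rw [mul_pow ρ, h6, mul_pow, mul_pow, mul_add]
      have h7 : ρ₁ ^ 2 ≤ ρ ^ 2 := pow_le_pow_left₀ p1.le (le_max_left _ _) 2
      have h8 : ρ₂ ^ 2 ≤ ρ ^ 2 := pow_le_pow_left₀ p2.le (le_max_right _ _) 2
      exact add_le_add (mul_le_mul_of_nonneg_right h7 (sq_nonneg _))
        (mul_le_mul_of_nonneg_right h8 (sq_nonneg _))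
    exact (sq_le_sq₀ (norm_nonneg _) (mul_nonneg hρ0 (norm_nonneg _))).1 h5
  · intro x y
    rw [key, key, add_sub_add_right_eq_sub, ← mul_sub, abs_mul, abs_of_nonneg (by linarith)]

theorem jobO3 (F : Type) [NormedAddCommGroup F] [InnerProductSpace ℝ F] [FiniteDimensional ℝ F] :
    S_O3 F := by
  intro f hf n₁ n₂ h₁ h₂ h₁₂ hex W ρ₁ ρ₂ β hW w1 w2 w0 hc
  rcases hc with ⟨p1, p1', p2, p2', pb⟩ | ⟨p1, p2, pb, pb'⟩
  · exact o3_core hf h₁ h₂ h₁₂ hex (fun p hp => (hW p).1 hp) w1 w2 w0 p1 p1' p2 p2' pb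
  · have q1 : 0 < ρ₁ := one_pos.trans p1
    have q2 : 0 < ρ₂ := one_pos.trans p2
    have hinv : ∀ (v : Sp F) (r : ℝ), r ≠ 0 → W.linear v = r • v → W.symm.linear v = r⁻¹ • v := by
      intro v r hr h
      have h3 : W.linear (r⁻¹ • v) = v := by
        rw [map_smul, h, smul_smul, inv_mul_cancel₀ hr, one_smul]
      have h4 : W.symm.linear (W.linear (r⁻¹ • v)) = r⁻¹ • v := by
        simp
      rwa [h3] at h4
    refine o3_core hf h₁ h₂ h₁₂ hex (W := W.symm) (fun p hp => ?_) (hinv _ _ q1.ne' w1)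
      (hinv _ _ q2.ne' w2) (hinv _ _ pb.ne' w0) (inv_pos.2 q1) (inv_lt_one_of_one_lt₀ p1)
      (inv_pos.2 q2) (inv_lt_one_of_one_lt₀ p2) ((one_le_inv₀ pb).2 pb')
    rw [hW, AffineEquiv.apply_symm_apply]
    exact hp

end Pool.Agent.Q76.H2
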