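import Pool.Agent.Q76.H2.Stm

set_option autoImplicit false

open Set Filter Topology MeasureTheory

namespace Pool.Agent.Q76.H2

open Pool.Agent.Q76.HR

lemma pl_decomp (p : Sp ℝ) : p = p.fst • pt (1:ℝ) 0 + p.snd • ev := by
  apply ext' <;> simp

lemma unit_horizontal {q : Sp ℝ} (hq : q.snd = 0) (hn : ‖q‖ = 1) :
    ∃ η : ℝ, |η| = 1 ∧ q = pt η 0 := by
  have h3 : ‖q‖ ^ 2 = q.fst ^ 2 := by
    rw [← real_inner_self_eq_norm_sq, inner_sp, hq, mul_zero, add_zero,
      real_inner_self_eq_norm_sq, Real.norm_eq_abs, sq_abs]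
  refine ⟨q.fst, ?_, ext' rfl hq⟩
  rw [hn, one_pow] at h3
  have h4 : (q.fst - 1) * (q.fst + 1) = 0 := by linear_combination -h3
  rcases mul_eq_zero.1 h4 with h5 | h5
  · have : q.fst = 1 := by linarith
    rw [this, abs_one]
  · have : q.fst = -1 := by linarith
    rw [this, abs_neg, abs_one]

lemma norm_pt1 : ‖(pt (1:ℝ) 0 : Sp ℝ)‖ = 1 := by
  have h1 : ‖(pt (1:ℝ) 0 : Sp ℝ)‖ ^ 2 = 1 := by
    rw [← real_inner_self_eq_norm_sq, inner_sp]
    simp
  have := norm_nonneg (pt (1:ℝ) 0 : Sp ℝ)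
  nlinarith

theorem jobQ3 : S_Q3 := by
  intro g a k a' k' ha hk ha' hk' R τ hR he
  -- image of the horizontal vector
  have h0 : (R (pt (1:ℝ) 0)).snd = 0 := by
    have h1 : inner ℝ (R (pt (1:ℝ) 0)) (R ev) = 0 := by
      rw [R.inner_map_map, inner_ev]; rfl
    rcases he with h | h
    · rw [h, inner_ev] at h1; exact h1
    · rw [h, inner_neg_right, inner_ev] at h1; linarith
  obtain ⟨η, hη, hRη⟩ := unit_horizontal h0 (by rw [LinearIsometryEquiv.norm_map, norm_pt1])
  obtain ⟨ε, hε, hRε⟩ : ∃ ε : ℝ, |ε| = 1 ∧ R ev = ε • ev := by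
    rcases he with h | h
    · exact ⟨1, abs_one, by rw [h, one_smul]⟩
    · exact ⟨-1, by rw [abs_neg, abs_one], by rw [h, neg_one_smul]⟩
  have hη0 : η ≠ 0 := by rintro rfl; simp at hη
  have key : ∀ x : ℝ, g (a' * (η * (x / a) + τ.fst)) = (ε * (k * g x) + τ.snd) / k' := by
    intro x
    have h1 : pt (x / a) (k * g x) ∈ Gr (fun s : ℝ => k * g (a * s)) := by
      change k * g x = k * g (a * (x / a))
      rw [mul_div_cancel₀ x ha.ne']
    have h2 := (hR _).1 h1
    rw [pl_decomp (pt (x / a) (k * g x)), map_add, map_smul, map_smul, hRη, hRε] at h2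
    simp only [Gr, Set.mem_ofPred_eq, fst_add, snd_add, fst_smul, snd_smul, pt_fst, pt_snd, ev_fst,
      ev_snd, smul_eq_mul, mul_zero, zero_add, mul_one, add_zero] at h2
    rw [eq_div_iff hk'.ne']
    have e : x / a * η = η * (x / a) := mul_comm _ _
    rw [e] at h2
    linarith
  refine ⟨fun x => a' * (η * (x / a) + τ.fst), ?_, ?_, ?_⟩
  · intro y
    refine ⟨a * ((y / a' - τ.fst) / η), ?_⟩
    simp only
    field_simp
    ring
  · intro x y
    have e : a' * (η * (x / a) + τ.fst) - a' * (η * (y / a) + τ.fst) = (a' / a) * η * (x - y) := by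
      field_simp; ring
    rw [e, abs_mul, abs_mul, hη, mul_one, abs_of_pos (div_pos ha' ha)]
  · intro x y
    have e : (ε * (k * g x) + τ.snd) / k' - (ε * (k * g y) + τ.snd) / k' =
        (k / k') * ε * (g x - g y) := by
      field_simp; ring
    simp only [key]
    rw [e, abs_mul, abs_mul, hε, mul_one, abs_of_pos (div_pos hk hk')]

theorem jobQ4 : S_Q4 := by
  intro g a k a' k' ha hk ha' hk' R τ hR he
  obtain ⟨η₂, hη₂, h1⟩ := unit_horizontal he (by rw [LinearIsometryEquiv.norm_map, norm_ev])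
  have hη20 : η₂ ≠ 0 := by rintro rfl; simp at hη₂
  have hη2s : η₂ * η₂ = 1 := by
    rw [← abs_mul_abs_self, hη₂, one_mul]
  have hR1 : R (pt (1:ℝ) 0) = η₂ • ev := by
    have h2 : R (pt η₂ 0) = ev := by rw [← h1]; simp
    have h3 : pt (1:ℝ) 0 = η₂ • pt η₂ (0:ℝ) := by
      apply ext'
      · simp [hη2s]
      · simp
    rw [h3, map_smul, h2]
  have h0 : (R ev).snd = 0 := by
    have h2 : inner ℝ (R (ev : Sp ℝ)) (R (pt (1:ℝ) 0)) = 0 := by
      rw [R.inner_map_map, inner_sp]; simp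
    rw [hR1, real_inner_smul_right, inner_ev] at h2
    exact (mul_eq_zero.1 h2).resolve_left hη20
  obtain ⟨η₁, hη₁, hR0⟩ := unit_horizontal h0 (by rw [LinearIsometryEquiv.norm_map, norm_ev])
  -- the self-map of the graph of `g`
  have key : ∀ x : ℝ, g (a' * (η₁ * (k * g x) + τ.fst)) = (η₂ * (x / a) + τ.snd) / k' := by
    intro x
    have h1 : pt (x / a) (k * g x) ∈ Gr (fun s : ℝ => k * g (a * s)) := by
      change k * g x = k * g (a * (x / a))
      rw [mul_div_cancel₀ x ha.ne']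
    have h2 := (hR _).1 h1
    rw [pl_decomp (pt (x / a) (k * g x)), map_add, map_smul, map_smul, hR1, hR0] at h2
    simp only [Gr, Set.mem_ofPred_eq, fst_add, snd_add, fst_smul, snd_smul, pt_fst, pt_snd, ev_fst,
      ev_snd, smul_eq_mul, mul_zero, zero_add, mul_one, add_zero] at h2
    rw [eq_div_iff hk'.ne']
    have e : k * g x * η₁ = η₁ * (k * g x) := mul_comm _ _
    have e' : x / a * η₂ = η₂ * (x / a) := mul_comm _ _
    rw [e, e'] at h2
    linarith
  set A : ℝ → ℝ := fun y => a' * (η₁ * (k * y) + τ.fst) with hA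
  set B : ℝ → ℝ := fun x => (η₂ * (x / a) + τ.snd) / k' with hB
  have key' : ∀ x, g (A (g x)) = B x := key
  have hAB : ∀ x, g (A (B x)) = B (A (g x)) := by
    intro x
    have h2 := key' (A (g x))
    rw [key' x] at h2
    exact h2
  have hη₁0 : η₁ ≠ 0 := by rintro rfl; simp at hη₁
  have hAB' : ∀ x y, A (B x) - A (B y) = (a' * k / (a * k')) * (η₁ * η₂) * (x - y) := by
    intro x y; simp only [hA, hB]; field_simp; ring
  have hBA' : ∀ x y, B (A x) - B (A y) = (a' * k / (a * k')) * (η₁ * η₂) * (x - y) := by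
    intro x y; simp only [hA, hB]; field_simp; ring
  have hpos : 0 < a' * k / (a * k') := by positivity
  refine ⟨fun x => A (B x), ?_, ?_, ?_⟩
  · intro y
    refine ⟨a * (((y / a' - τ.fst) / η₁ / k * k' - τ.snd) / η₂), ?_⟩
    simp only [hA, hB]
    field_simp
    ring
  · intro x y
    rw [hAB', abs_mul, abs_mul, abs_mul η₁, hη₁, hη₂, mul_one, mul_one, abs_of_pos hpos]
  · intro x y
    simp only [hAB]
    rw [hBA', abs_mul, abs_mul, abs_mul η₁, hη₁, hη₂, mul_one, mul_one, abs_of_pos hpos]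

end Pool.Agent.Q76.H2
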