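import Pool.Agent.Q76.H2.Stm

set_option autoImplicit false

open Set Filter Topology MeasureTheory

namespace Pool.Agent.Q76.H2

open Pool.Agent.Q76.HR

/-- The case of two contractions with `γ₁ > γ₂ > 0`. -/
lemma q2_core {g : ℝ → ℝ} (hg : Continuous g) {S₁ S₂ : ℝ → ℝ} {ρ₁ ρ₂ l₁ l₂ : ℝ} (h1 : 0 < ρ₁)
    (h1' : ρ₁ < 1) (h2 : 0 < ρ₂) (h2' : ρ₂ < 1) (k1 : 0 < l₁) (k1' : l₁ < 1) (k2 : 0 < l₂)
    (k2' : l₂ < 1) (hs1 : Function.Surjective S₁)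
    (e1 : ∀ x y, |S₁ x - S₁ y| = ρ₁ * |x - y|) (e2 : ∀ x y, |S₂ x - S₂ y| = ρ₂ * |x - y|)
    (f1 : ∀ x y, |g (S₁ x) - g (S₁ y)| = l₁ * |g x - g y|)
    (f2 : ∀ x y, |g (S₂ x) - g (S₂ y)| = l₂ * |g x - g y|)
    (hlt : Real.log l₂ * Real.log ρ₁ < Real.log l₁ * Real.log ρ₂) : ∀ x y, g x = g y := by
  set r₁ := -Real.log ρ₁ with hr₁
  set r₂ := -Real.log ρ₂ with hr₂
  set m₁ := -Real.log l₁ with hm₁
  set m₂ := -Real.log l₂ with hm₂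
  have pr₁ : 0 < r₁ := neg_pos.2 (Real.log_neg h1 h1')
  have pr₂ : 0 < r₂ := neg_pos.2 (Real.log_neg h2 h2')
  have pm₁ : 0 < m₁ := neg_pos.2 (Real.log_neg k1 k1')
  have pm₂ : 0 < m₂ := neg_pos.2 (Real.log_neg k2 k2')
  have hlt' : m₂ * r₁ < m₁ * r₂ := by
    rw [hm₂, hr₁, hm₁, hr₂, neg_mul_neg, neg_mul_neg]; exact hlt
  -- choose N
  obtain ⟨N, hN⟩ := exists_nat_gt (m₂ * r₂ / (m₁ * r₂ - m₂ * r₁))
  have hd : 0 < m₁ * r₂ - m₂ * r₁ := by linarith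
  have hN' : m₂ * r₂ < N * (m₁ * r₂ - m₂ * r₁) := by
    rwa [div_lt_iff₀ hd] at hN
  have hN0 : 0 < (N : ℝ) := lt_of_le_of_lt (by positivity) hN
  have hNn : N ≠ 0 := by
    rintro rfl
    simp at hN0
  set M := ⌈N * r₁ / r₂⌉₊ with hM
  have hM1 : N * r₁ ≤ M * r₂ := by
    rw [← div_le_iff₀ pr₂]
    exact Nat.le_ceil _
  have hM2 : (M : ℝ) * r₂ < N * r₁ + r₂ := by
    have := Nat.ceil_lt_add_one (show 0 ≤ N * r₁ / r₂ by positivity)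
    rw [← hM] at this
    have h3 := mul_lt_mul_of_pos_right this pr₂
    rwa [add_mul, one_mul, div_mul_cancel₀ _ pr₂.ne'] at h3
  have hρ : ρ₂ ^ M ≤ ρ₁ ^ N := by
    rw [← Real.log_le_log_iff (pow_pos h2 _) (pow_pos h1 _), Real.log_pow, Real.log_pow]
    have a1 : Real.log ρ₁ = -r₁ := by rw [hr₁, neg_neg]
    have a2 : Real.log ρ₂ = -r₂ := by rw [hr₂, neg_neg]
    rw [a1, a2]; linarith
  have hl : l₁ ^ N < l₂ ^ M := by
    rw [← Real.log_lt_log_iff (pow_pos k1 _) (pow_pos k2 _), Real.log_pow, Real.log_pow]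
    have a1 : Real.log l₁ = -m₁ := by rw [hm₁, neg_neg]
    have a2 : Real.log l₂ = -m₂ := by rw [hm₂, neg_neg]
    rw [a1, a2]
    have h4 : (M : ℝ) * m₂ < N * m₁ := by
      have h5 : (M : ℝ) * r₂ * m₂ < (N * r₁ + r₂) * m₂ := mul_lt_mul_of_pos_right hM2 pm₂
      have h6 : (M : ℝ) * m₂ * r₂ < N * m₁ * r₂ := by nlinarith
      exact lt_of_mul_lt_mul_right h6 pr₂.le
    linarith
  have d1 : ∀ a b, dist (S₁ a) (S₁ b) = ρ₁ * dist a b := by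
    intro a b; rw [Real.dist_eq, Real.dist_eq]; exact e1 a b
  have d2 : ∀ a b, dist (S₂ a) (S₂ b) = ρ₂ * dist a b := by
    intro a b; rw [Real.dist_eq, Real.dist_eq]; exact e2 a b
  exact const_of_two hg (S₁ := S₁^[N]) (S₂ := S₂^[M]) (pow_pos h2 M) hρ
    (pow_lt_one₀ h1.le h1' hNn) (fun a b => iter_dist d1 N a b) (fun a b => iter_dist d2 M a b)
    (hs1.iterate N) (pow_pos k1 N) hl (pow_lt_one₀ k1.le k1' hNn)
    (fun a b => iter_val f1 N a b) (fun a b => iter_val f2 M a b)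

/-- The case of two contractions. -/
lemma q2_contr {g : ℝ → ℝ} (hg : Continuous g) {S₁ S₂ : ℝ → ℝ} {ρ₁ ρ₂ l₁ l₂ : ℝ} (h1 : 0 < ρ₁)
    (h1' : ρ₁ < 1) (h2 : 0 < ρ₂) (h2' : ρ₂ < 1) (k1 : 0 < l₁) (k2 : 0 < l₂)
    (hs1 : Function.Surjective S₁) (hs2 : Function.Surjective S₂)
    (e1 : ∀ x y, |S₁ x - S₁ y| = ρ₁ * |x - y|) (e2 : ∀ x y, |S₂ x - S₂ y| = ρ₂ * |x - y|)
    (f1 : ∀ x y, |g (S₁ x) - g (S₁ y)| = l₁ * |g x - g y|)
    (f2 : ∀ x y, |g (S₂ x) - g (S₂ y)| = l₂ * |g x - g y|)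
    (hne : Real.log l₁ * Real.log ρ₂ ≠ Real.log l₂ * Real.log ρ₁) : ∀ x y, g x = g y := by
  have d1 : ∀ a b, dist (S₁ a) (S₁ b) = ρ₁ * dist a b := by
    intro a b; rw [Real.dist_eq, Real.dist_eq]; exact e1 a b
  have d2 : ∀ a b, dist (S₂ a) (S₂ b) = ρ₂ * dist a b := by
    intro a b; rw [Real.dist_eq, Real.dist_eq]; exact e2 a b
  by_cases c1 : 1 ≤ l₁
  · exact const_of_one hg h1.le h1' d1 c1 f1
  by_cases c2 : 1 ≤ l₂
  · exact const_of_one hg h2.le h2' d2 c2 f2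
  push Not at c1 c2
  rcases lt_or_gt_of_ne hne with h | h
  · exact q2_core hg h2 h2' h1 h1' k2 c2 k1 c1 hs2 e2 e1 f2 f1 h
  · exact q2_core hg h1 h1' h2 h2' k1 c1 k2 c2 hs1 e1 e2 f1 f2 h

/-- The inverse self-similarity. -/
lemma inv_sim {g : ℝ → ℝ} {S : ℝ → ℝ} {ρ l : ℝ} (h1 : 0 < ρ) (k1 : 0 < l)
    (hs : Function.Surjective S) (e : ∀ x y, |S x - S y| = ρ * |x - y|)
    (f : ∀ x y, |g (S x) - g (S y)| = l * |g x - g y|) :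
    ∃ T : ℝ → ℝ, Function.Surjective T ∧ (∀ x y, |T x - T y| = ρ⁻¹ * |x - y|) ∧
      ∀ x y, |g (T x) - g (T y)| = l⁻¹ * |g x - g y| := by
  choose T hT using hs
  refine ⟨T, fun y => ⟨S y, ?_⟩, fun x y => ?_, fun x y => ?_⟩
  · have h3 := e (T (S y)) y
    rw [hT, sub_self, abs_zero] at h3
    have h4 := (mul_eq_zero.1 h3.symm).resolve_left h1.ne'
    exact sub_eq_zero.1 (abs_eq_zero.1 h4)
  · have h3 := e (T x) (T y)
    rw [hT, hT] at h3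
    rw [h3, ← mul_assoc, inv_mul_cancel₀ h1.ne', one_mul]
  · have h3 := f (T x) (T y)
    rw [hT, hT] at h3
    rw [h3, ← mul_assoc, inv_mul_cancel₀ k1.ne', one_mul]

theorem jobQ2 : S_Q2 := by
  intro g hg S₁ S₂ ρ₁ ρ₂ l₁ l₂ h1 h2 k1 k2 n1 n2 hs1 hs2 e1 e2 f1 f2 hne
  rcases lt_or_gt_of_ne n1 with c1 | c1 <;> rcases lt_or_gt_of_ne n2 with c2 | c2
  · exact q2_contr hg h1 c1 h2 c2 k1 k2 hs1 hs2 e1 e2 f1 f2 hne
  · obtain ⟨T, ht, et, ft⟩ := inv_sim h2 k2 hs2 e2 f2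
    refine q2_contr hg h1 c1 (inv_pos.2 h2) (inv_lt_one_of_one_lt₀ c2) k1 (inv_pos.2 k2) hs1 ht e1 et
      f1 ft ?_
    rw [Real.log_inv, Real.log_inv]
    intro h
    apply hne
    linarith
  · obtain ⟨T, ht, et, ft⟩ := inv_sim h1 k1 hs1 e1 f1
    refine q2_contr hg (inv_pos.2 h1) (inv_lt_one_of_one_lt₀ c1) h2 c2 (inv_pos.2 k1) k2 ht hs2 et e2
      ft f2 ?_
    rw [Real.log_inv, Real.log_inv]
    intro h
    apply hne
    linarith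
  · obtain ⟨T, ht, et, ft⟩ := inv_sim h1 k1 hs1 e1 f1
    obtain ⟨T', ht', et', ft'⟩ := inv_sim h2 k2 hs2 e2 f2
    refine q2_contr hg (inv_pos.2 h1) (inv_lt_one_of_one_lt₀ c1) (inv_pos.2 h2)
      (inv_lt_one_of_one_lt₀ c2) (inv_pos.2 k1) (inv_pos.2 k2) ht ht' et et' ft ft' ?_
    rw [Real.log_inv, Real.log_inv, Real.log_inv, Real.log_inv]
    intro h
    apply hne
    linarith

end Pool.Agent.Q76.H2
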