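import Pool.Agent.Q76.H2.Stm

set_option autoImplicit false

open Set Filter Topology MeasureTheory

namespace Pool.Agent.Q76.H2

open Pool.Agent.Q76.HR

/-- The strictly convex function `Λ x = log (1 + δ² exp (2 x))`. -/
lemma lam_conv {δ : ℝ} (hδ : δ ≠ 0) :
    StrictConvexOn ℝ univ fun x : ℝ => Real.log (1 + δ ^ 2 * Real.exp (2 * x)) := by
  have hpos : ∀ x : ℝ, 0 < 1 + δ ^ 2 * Real.exp (2 * x) := fun x => by positivity
  have hder : ∀ x : ℝ, HasDerivAt (fun x : ℝ => Real.log (1 + δ ^ 2 * Real.exp (2 * x)))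
      ((δ ^ 2 * (Real.exp (2 * x) * 2)) / (1 + δ ^ 2 * Real.exp (2 * x))) x := by
    intro x
    have h1 : HasDerivAt (fun x : ℝ => 2 * x) 2 x := by
      simpa using (hasDerivAt_id x).const_mul 2
    have h2 := ((h1.exp).const_mul (δ ^ 2)).const_add 1
    exact h2.log (hpos x).ne'
  refine StrictMonoOn.strictConvexOn_of_deriv convex_univ
    (fun x _ => (hder x).continuousAt.continuousWithinAt) ?_
  rw [interior_univ]
  intro x _ y _ hxy
  rw [(hder x).deriv, (hder y).deriv, div_lt_div_iff₀ (hpos x) (hpos y)]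
  have hexp : Real.exp (2 * x) < Real.exp (2 * y) := Real.exp_lt_exp.2 (by linarith)
  have hd : 0 < δ ^ 2 := by positivity
  nlinarith [mul_lt_mul_of_pos_left hexp hd]

theorem jobQ5 : S_Q5 := by
  constructor
  · intro δ a b c hδ ha hb hc hab hac hbc h
    have hlog : ∀ x y : ℝ, 0 < x → 0 < y → Real.log (kap δ x / kap δ y) =
        (1 / 2) * (Real.log (1 + δ ^ 2 * Real.exp (2 * Real.log y)) -
          Real.log (1 + δ ^ 2 * Real.exp (2 * Real.log x))) := by
      intro x y hx hy
      have e : ∀ z : ℝ, 0 < z → δ ^ 2 * Real.exp (2 * Real.log z) = (z * δ) ^ 2 := by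
        intro z hz
        rw [two_mul, Real.exp_add, Real.exp_log hz]; ring
      rw [e x hx, e y hy]
      have kx : 0 < Real.sqrt (1 + (x * δ) ^ 2) := by positivity
      have ky : 0 < Real.sqrt (1 + (y * δ) ^ 2) := by positivity
      have e1 : kap δ x / kap δ y = Real.sqrt (1 + (y * δ) ^ 2) / Real.sqrt (1 + (x * δ) ^ 2) := by
        unfold kap
        field_simp
      rw [e1, Real.log_div ky.ne' kx.ne', Real.log_sqrt (by positivity), Real.log_sqrt (by positivity)]
      ring
    rw [hlog a b ha hb, hlog a c ha hc, Real.log_div hc.ne' ha.ne', Real.log_div hb.ne' ha.ne'] at h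
    set α := Real.log a
    set β := Real.log b
    set γ := Real.log c
    have hαβ : β ≠ α := fun h3 => hab (Real.log_injOn_pos hb ha h3).symm
    have hαγ : γ ≠ α := fun h3 => hac (Real.log_injOn_pos hc ha h3).symm
    have hβγ : β ≠ γ := fun h3 => hbc (Real.log_injOn_pos hb hc h3)
    have h1 : β - α ≠ 0 := sub_ne_zero.2 hαβ
    have h2 : γ - α ≠ 0 := sub_ne_zero.2 hαγ
    have hsl : (Real.log (1 + δ ^ 2 * Real.exp (2 * β)) - Real.log (1 + δ ^ 2 * Real.exp (2 * α))) /
        (β - α) = (Real.log (1 + δ ^ 2 * Real.exp (2 * γ)) -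
        Real.log (1 + δ ^ 2 * Real.exp (2 * α))) / (γ - α) := by
      rw [div_eq_div_iff h1 h2]
      linarith
    rcases lt_or_gt_of_ne hβγ with h3 | h3
    · have := (lam_conv hδ).secant_strict_mono (mem_univ α) (mem_univ β) (mem_univ γ) hαβ hαγ h3
      exact this.ne hsl
    · have := (lam_conv hδ).secant_strict_mono (mem_univ α) (mem_univ γ) (mem_univ β) hαγ hαβ h3
      exact this.ne' hsl
  · intro δ a b ha hab
    have hb : 0 < b := ha.trans hab
    have ka : 0 < Real.sqrt (1 + (a * δ) ^ 2) := by positivity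
    have kb : 0 < Real.sqrt (1 + (b * δ) ^ 2) := by positivity
    have hle : (a * δ) ^ 2 ≤ (b * δ) ^ 2 := by
      rw [mul_pow, mul_pow]
      exact mul_le_mul_of_nonneg_right (pow_le_pow_left₀ ha.le hab.le 2) (sq_nonneg _)
    refine ⟨by unfold kap; positivity, ?_, ?_⟩
    · unfold kap
      rw [mul_one_div, mul_one_div, div_lt_div_iff₀ ka kb]
      have h1 : (a * Real.sqrt (1 + (b * δ) ^ 2)) ^ 2 < (b * Real.sqrt (1 + (a * δ) ^ 2)) ^ 2 := by
        rw [mul_pow a (Real.sqrt (1 + (b * δ) ^ 2)), mul_pow b (Real.sqrt (1 + (a * δ) ^ 2)),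
          Real.sq_sqrt (by positivity), Real.sq_sqrt (by positivity)]
        have : a ^ 2 < b ^ 2 := pow_lt_pow_left₀ hab ha.le two_ne_zero
        nlinarith
      exact lt_of_pow_lt_pow_left₀ 2 (by positivity) h1
    · unfold kap
      exact one_div_le_one_div_of_le ka (Real.sqrt_le_sqrt (by linarith))

end Pool.Agent.Q76.H2
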