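import Pool.Agent.Q76.H2.Asm4
import Pool.Agent.Q76.H2.JobI
import Pool.Agent.Q76.H2.JobQ
import Pool.Agent.Q76.H2.JobQ2
import Pool.Agent.Q76.H2.JobO3
import Pool.Agent.Q76.H2.JobQ5
import Pool.Agent.Q76.H2.JobC
import Pool.Agent.Q63.H2.U
import Pool.Agent.Q63.H2.W
import Pool.Agent.Q182.H2.V
import Pool.Agent.Q223.H2.P
import Pool.Agent.Q223.H2.D
import Pool.Agent.Q95.H2.O2

set_option autoImplicit false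

open Set Filter Topology MeasureTheory

namespace Pool.Agent.Q76.H2

open Pool.Agent.Q76.HR

/-- **Main theorem.** -/
theorem main_two {f : EuclideanSpace ℝ (Fin 2) → ℝ} (hf : Continuous f) {c₁ c₂ : ℝ} (hc₁ : 0 < c₁)
    (hc₂ : 0 < c₂) (h11 : c₁ ≠ 1) (h21 : c₂ ≠ 1) (h12 : c₁ ≠ c₂)
    {O₁ O₂ : Sp (EuclideanSpace ℝ (Fin 2)) ≃ₗᵢ[ℝ] Sp (EuclideanSpace ℝ (Fin 2))}
    {τ₁ τ₂ : Sp (EuclideanSpace ℝ (Fin 2))} (hr1 : Rel O₁ τ₁ f (sc f c₁))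
    (hr2 : Rel O₂ τ₂ f (sc f c₂)) :
    ∃ L : EuclideanSpace ℝ (Fin 2) →ₗ[ℝ] ℝ, ∀ x, f x = f 0 + L x :=
  main_of Pool.Agent.Q63.H2.a (Pool.Agent.Q63.H2.aW _) (jobC _) (Pool.Agent.Q182.H2.V.a _)
    (jobI _) (Pool.Agent.Q223.H2.D.a _) (jobE _) (jobO1 _) (Pool.Agent.Q95.H2.O2.a _ (jobO3 _)) (Pool.Agent.Q223.H2.P.a _)
    (Pool.Agent.Q63.H2.aW _) (jobC _) (Pool.Agent.Q182.H2.V.a _) (jobI _) (Pool.Agent.Q223.H2.D.a _) (jobE _)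
    jobQ2 jobQ3 jobQ4 jobQ5 (by simp) hf hc₁ hc₂ h11 h21 h12 hr1 hr2

end Pool.Agent.Q76.H2
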