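import Pool.Agent.Q76.H2.Defs
import Pool.Agent.H212R2.KLS.T1

/-!
# Statements of the lemma jobs of project H2 (row MP_7fe07c_an)

Notation of `Pool.Agent.Q76.HR.Cone`: `Sp F = WithLp 2 (F × ℝ)`, `pt x t` the point `(x, t)`, `ev = (0, 1)`,
`Gr f` the graph, `Co f` the cone of the directions above all secants, `La f` the translations preserving
the graph, `Rel O τ f g`: the isometry `p ↦ O p + τ` maps `Gr f` onto `Gr g`, `sc f c x = f (c x)`.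
Every docstring below contains the complete proof of its statement.
-/

set_option autoImplicit false

open Set Filter Topology MeasureTheory

namespace Pool.Agent.Q76.H2

open Pool.Agent.Q76.HR

/-- **JOB U.**  Write `V c = ∫_0^∞ exp(-u^2) w(c u) du`; it is continuous on `(0, ∞)` (dominated
convergence).  `V` takes the same value at `a < b < c`, so `V` has a minimum point `m` over `[a, c]` with
`a < m < c` (if the minimum were attained only at the ends, its value would be `V b`).  Let `r > 1` be so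
close to `1` that `a ≤ m / r` and `m r ≤ c`, and let `δ x = w (r x) - w x` for `x > 0`.  By the substitution
`x = c' u` one has `V (r c') - V c' = (1 / c') A (1 / c' ^ 2)` with `A s = ∫_0^∞ exp(-s x^2) δ x dx`.  So
`A s₁ ≥ 0` for `s₁ = 1 / m^2` (`c' = m`) and `A s₂ ≤ 0` for `s₂ = r^2 / m^2 > s₁` (`c' = m / r`).
Sign pattern: if `δ x < 0` and `x < x'` then `δ x' ≤ 0`.  Indeed `w x > w (r x)`; quasi-concavity gives
`w z ≤ w (r x) < w x` for `z ≥ r x` (from `min (w x) (w z) ≤ w (r x)`), hence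
`min (w x) (w (r x')) = w (r x')`, and `min (w x) (w (r x')) ≤ w x'`.
If `δ ≥ 0` everywhere, `A s₂ ≤ 0` gives `δ = 0` a.e.; if `δ ≤ 0` everywhere, `A s₁ ≥ 0` gives the same.
Otherwise let `x₀ = inf {x > 0 | δ x < 0}`: `δ ≥ 0` on `(0, x₀)` and `δ ≤ 0` on `(x₀, ∞)`.  Then
`exp(-(s₂ - s₁)(x^2 - x₀^2)) δ x ≥ δ x` for all `x`, so `exp((s₂ - s₁) x₀^2) A s₂ ≥ A s₁ ≥ 0 ≥ A s₂`,
hence there is equality and `δ = 0` a.e.  As `δ` is continuous on `(0, ∞)`, `w (r x) = w x` for all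
`x > 0` and all `r` in an interval `(1, r₀)`.  For `x < y` take `n` with `(y / x)^(1/n) < r₀` and iterate. -/
def S_U : Prop :=
  ∀ (w : ℝ → ℝ) (B : ℝ), ContinuousOn w (Ioi 0) → (∀ x, 0 ≤ w x ∧ w x ≤ B) →
    (∀ x y z : ℝ, 0 < x → x ≤ y → y ≤ z → min (w x) (w z) ≤ w y) →
    ∀ a b c : ℝ, 0 < a → a < b → b < c →
    (∫ u in Ioi (0:ℝ), Real.exp (-u ^ 2) * w (a * u)) =
      (∫ u in Ioi (0:ℝ), Real.exp (-u ^ 2) * w (b * u)) →
    (∫ u in Ioi (0:ℝ), Real.exp (-u ^ 2) * w (b * u)) =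
      (∫ u in Ioi (0:ℝ), Real.exp (-u ^ 2) * w (c * u)) →
    ∀ x y : ℝ, 0 < x → 0 < y → w x = w y

section measure

variable (F : Type) [NormedAddCommGroup F] [InnerProductSpace ℝ F] [FiniteDimensional ℝ F]
  [MeasurableSpace F] [BorelSpace F]

/-- **JOB W.**  For a closed convex set `P` the function `t ↦ wG P t` (the integral of `exp(-|x|^2)` over
`{x | t⁻¹ x ∈ P}`) is continuous on `(0, ∞)`, lies between `0` and the integral over the whole space, and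
is quasi-concave on `(0, ∞)`.
Continuity: for `t > 0` the substitution `x = t p` gives `wG P t = t ^ n ∫_P exp(-t^2 |p|^2) dp` with
`n = finrank ℝ F` (`MeasureTheory.Measure.setIntegral_comp_smul` or `integral_comp_smul`); dominated
convergence (near `t₀ > 0` dominate by `exp(-(t₀/2)^2 |p|^2)`).
Quasi-concavity: let `0 < x ≤ y ≤ z`, `y = (1 - s) x + s z` with `0 ≤ s ≤ 1`; the cases `s = 0`, `s = 1`
are trivial.  For `0 < s < 1` apply the Prekopa-Leindler inequality `Pool.Agent.H212R2.KLS.PL` with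
`ν = volume` to the functions `f(v) = 1[x⁻¹ v ∈ P] exp(-|v|^2)`, `g(v) = 1[z⁻¹ v ∈ P] exp(-|v|^2)`,
`h(v) = 1[y⁻¹ v ∈ P] exp(-|v|^2)` (as `ENNReal`-valued functions): if `u ∈ x P` and `v ∈ z P` then
`(1 - s) u + s v ∈ ((1 - s) x + s z) P = y P` by convexity, and
`exp(-|u|^2)^(1-s) exp(-|v|^2)^s ≤ exp(-|(1-s) u + s v|^2)` by convexity of the square of the norm.  So
`wG P y ≥ (wG P x)^(1-s) (wG P z)^s ≥ min (wG P x) (wG P z)`. -/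
def S_W : Prop :=
  ∀ P : Set F, Convex ℝ P → IsClosed P →
    ContinuousOn (wG P) (Ioi 0) ∧
    (∀ t : ℝ, 0 ≤ wG P t ∧ wG P t ≤ ∫ x : F, Real.exp (-‖x‖ ^ 2)) ∧
    ∀ x y z : ℝ, 0 < x → x ≤ y → y ≤ z → min (wG P x) (wG P z) ≤ wG P y

/-- **JOB C.**  If `wG P` is constant on `(0, ∞)` then `P` is a null set or a cone.
Suppose that `P` is not null; then the constant is positive (`exp > 0`, `t = 1`).  (1) `0 ∈ P`: otherwise,
as `P` is closed, for each `x` one has `t⁻¹ x ∉ P` for all large `t` (as `t⁻¹ x → 0`), and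
`wG P t → 0` for `t → ∞` by dominated convergence, a contradiction.  (2) `P` is convex and not null, so
its interior is nonempty (`Convex.addHaar_frontier`: the frontier of a convex set is null, so if the
interior is empty then `P ⊆ closure P = frontier P` is null) and `P ⊆ closure (interior P)`
(`Convex.closure_interior_eq_closure_of_nonempty_interior`).
(3) Let `p ∈ P`, `s ≥ 0`.  If `s ≤ 1`, then `s p ∈ P` by convexity and `0 ∈ P`.  Let `s > 1` and suppose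
`s p ∉ P`.  For `0 < t ≤ t'` one has `{x | t⁻¹ x ∈ P} ⊆ {x | t'⁻¹ x ∈ P}` (convexity and `0 ∈ P`).  Now
`{x | s⁻¹ x ∈ P}` contains `s (interior P)`, an open set whose closure contains `s p`; as `P` is closed
there is a nonempty open subset `G` of `s (interior P)` disjoint from `P`.  So
`wG P s - wG P 1 ≥ ∫_G exp(-|x|^2) > 0`, a contradiction. -/
def S_C : Prop :=
  ∀ P : Set F, Convex ℝ P → IsClosed P → (∀ x y : ℝ, 0 < x → 0 < y → wG P x = wG P y) →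
    volume P = 0 ∨ ∀ p ∈ P, ∀ s : ℝ, 0 ≤ s → s • p ∈ P

/-- **JOB V.**  The Gaussian integral over the dual cone of `Sc K c`.  Use
`WithLp.volume_preserving_ofLp`/`toLp` to pass from `Sp F` to `F × ℝ` and Fubini (`setIntegral_prod`,
`integral_prod`; the integrand is bounded by the integrable `exp(-|x|^2) exp(-τ^2)`; the dual cone is
closed, hence measurable).  A point `ξ = (x, τ)` of the dual cone has `τ ≥ 0` because `ev ∈ Sc K c`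
(`ev ∈ K`); the points with `τ = 0` form a null set.  For `τ > 0`: `(x, τ)` is in the dual cone iff
`⟨x, q.fst⟩ + τ q.snd ≥ 0` for all `q` with `(c q.fst, q.snd) ∈ K` iff (put `r = (c q.fst, q.snd)`)
`⟨x, c⁻¹ r.fst⟩ + τ r.snd ≥ 0` for all `r ∈ K` iff `-(c τ)⁻¹ x ∈ Pd K`.  By the substitution `x ↦ -x` the
inner integral over `x` is `exp(-τ^2) wG (Pd K) (c τ)`. -/
def S_V : Prop :=
  ∀ K : Set (Sp F), Cn K → ∀ c : ℝ, 0 < c →
    Vd (Sc K c) = ∫ τ in Ioi (0:ℝ), Real.exp (-τ ^ 2) * wG (Pd K) (c * τ)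

/-- **JOB I.**  `U` maps the dual cone of `K` onto the dual cone of `K'`, preserves the norm and the
volume (`LinearIsometryEquiv.measurePreserving`). -/
def S_I : Prop :=
  ∀ (K K' : Set (Sp F)) (U : Sp F ≃ₗᵢ[ℝ] Sp F), (∀ p, p ∈ K ↔ U p ∈ K') → Vd K = Vd K'

/-- **JOB D.**  Let `P = Pd K`.  (0) Separation: if `q ∉ K` there is `ξ : Sp F` with `⟨ξ, r⟩ ≥ 0` for all
`r ∈ K` and `⟨ξ, q⟩ < 0` (closed convex cone; `ProperCone.hyperplane_separation` or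
`geometric_hahn_banach_point_closed` or `ConvexCone.hyperplane_separation_of_nonempty_of_isClosed_of_notMem`).
`ξ.snd ≥ 0` as `ev ∈ K`.  (1) `P` is nonempty: separate `-ev`; then `ξ.snd > 0` and
`p₀ = -ξ.snd⁻¹ ξ.fst ∈ P`.  (2) If `⟨p, q.fst⟩ ≤ q.snd` for all `p ∈ P` then `q ∈ K`: otherwise take `ξ`
as in (0), replace it by `ξ + ε (-p₀, 1)` with small `ε > 0` (still in the dual cone, still negative on `q`,
now with positive last coordinate) and `p = -ξ.snd⁻¹ ξ.fst ∈ P` has `⟨p, q.fst⟩ > q.snd`.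
(3) First claim: `P` is convex and closed, null, so its interior is empty, so its affine span is not
the whole space (`Convex.interior_nonempty_iff_affineSpan_eq_top`); as `P` is nonempty, the direction of the affine
span is a proper subspace; take `e ≠ 0` orthogonal to it.  Then `⟨p, e⟩ = δ` is constant on `P` and (2)
gives `(e, δ) ∈ K` and `(-e, -δ) ∈ K`.  (4) Second claim: for `q ∈ K`, `p ∈ P` and `s ≥ 0`:
`s ⟨p, q.fst⟩ ≤ q.snd`; `s = 0` (and `P` nonempty) gives `q.snd ≥ 0`, `s → ∞` gives `⟨p, q.fst⟩ ≤ 0`, and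
(2) gives `(q.fst, 0) ∈ K`. -/
def S_D : Prop :=
  ∀ K : Set (Sp F), Cn K →
    (volume (Pd K) = 0 → ∃ (e : F) (δ : ℝ), e ≠ 0 ∧ pt e δ ∈ K ∧ pt (-e) (-δ) ∈ K) ∧
    ((∀ p ∈ Pd K, ∀ s : ℝ, 0 ≤ s → s • p ∈ Pd K) → Prd K)

end measure

section geometry

variable (F : Type) [NormedAddCommGroup F] [InnerProductSpace ℝ F] [FiniteDimensional ℝ F]

/-- **JOB E.**  Let `N = U.symm ev ∈ K` and `N = w + t ev` with `t = N.snd ≥ 0` and
`w = (N.fst, 0) ∈ K`.  Suppose `t ≠ 0`.  Applying `U`: `ev = U w + t U ev` with `U w, U ev ∈ K`.  If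
`ev = x + y` with `x, y ∈ K`, then `x.fst = - y.fst` and `(x.fst, 0) ∈ K`, `(y.fst, 0) ∈ K` (product), so
`x.fst = 0` (pointed).  So `U ev` has `fst = 0`, is a unit vector, and `snd ≥ 0`; hence `U ev = ev`. -/
def S_E : Prop :=
  ∀ K : Set (Sp F), Cn K → Prd K → (∀ q ∈ K, -q ∈ K → q = 0) →
    ∀ U : Sp F ≃ₗᵢ[ℝ] Sp F, (∀ p, p ∈ K ↔ U p ∈ K) → U ev = ev ∨ (U.symm ev).snd = 0

/-- **JOB O1.**  `K` is the octant spanned by the orthonormal basis `X₁ = (n₁, 0)`, `X₂ = (n₂, 0)`,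
`X₀ = ev` of `Sp F`, and `U` maps `K` onto `K` with `U X₁ = X₀`.  `U X₀` and `U X₂` are unit vectors of `K`
orthogonal to `U X₁ = X₀`, so `U X₀ = α X₁ + β X₂`, `U X₂ = γ X₁ + ε X₂` with nonnegative coefficients,
and `α γ + β ε = 0`, so `α γ = 0 = β ε`, with `α^2 + β^2 = 1 = γ^2 + ε^2`: either `α = 1, β = 0, γ = 0,
ε = 1` or `α = 0, β = 1, γ = 1, ε = 0`. -/
def S_O1 : Prop :=
  ∀ (n₁ n₂ : F), ‖n₁‖ = 1 → ‖n₂‖ = 1 → inner ℝ n₁ n₂ = 0 →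
    (∀ x : F, x = inner ℝ n₁ x • n₁ + inner ℝ n₂ x • n₂) →
    ∀ U : Sp F ≃ₗᵢ[ℝ] Sp F,
    (∀ p : Sp F, (0 ≤ inner ℝ n₁ p.fst ∧ 0 ≤ inner ℝ n₂ p.fst ∧ 0 ≤ p.snd) ↔
      (0 ≤ inner ℝ n₁ (U p).fst ∧ 0 ≤ inner ℝ n₂ (U p).fst ∧ 0 ≤ (U p).snd)) →
    U (pt n₁ 0) = ev →
    ((U ev = pt n₁ 0 ∧ U (pt n₂ 0) = pt n₂ 0) ∨ (U ev = pt n₂ 0 ∧ U (pt n₂ 0) = pt n₁ 0))

/-- **JOB O3.**  `W` preserves the graph of `f`, and its linear part multiplies `X₁ = (n₁, 0)`,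
`X₂ = (n₂, 0)`, `X₀ = ev` by `ρ₁, ρ₂, β`, where `0 < ρ₁, ρ₂ < 1 ≤ β` or `ρ₁, ρ₂ > 1 ≥ β > 0`.  Then `f` is
constant.  In the second case replace `W` by `W.symm` (whose linear part multiplies by the inverses).  In the
first case `W (x, y) = W.linear (x, y) + W 0 = (L x, β y) + W 0` with
`L x = ρ₁ ⟨n₁, x⟩ n₁ + ρ₂ ⟨n₂, x⟩ n₂`, so `f (L x + d) = β f x + t` with `d = (W 0).fst`, `t = (W 0).snd`.
`S x = L x + d` satisfies `|S x - S y| ≤ ρ |x - y|` with `ρ = max ρ₁ ρ₂ < 1`, so it has a fixed point `z`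
(`ContractingWith`) and `S^[n] x → z`; `|f (S x) - f (S y)| = β |f x - f y| ≥ |f x - f y|`, so
`|f x - f z| ≤ |f (S^[n] x) - f z| → 0` by continuity. -/
def S_O3 : Prop :=
  ∀ (f : F → ℝ), Continuous f → ∀ (n₁ n₂ : F), ‖n₁‖ = 1 → ‖n₂‖ = 1 → inner ℝ n₁ n₂ = 0 →
    (∀ x : F, x = inner ℝ n₁ x • n₁ + inner ℝ n₂ x • n₂) →
    ∀ (W : Sp F ≃ᵃ[ℝ] Sp F) (ρ₁ ρ₂ β : ℝ), (∀ p, p ∈ Gr f ↔ W p ∈ Gr f) →
    W.linear (pt n₁ 0) = ρ₁ • pt n₁ 0 → W.linear (pt n₂ 0) = ρ₂ • pt n₂ 0 →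
    W.linear ev = β • ev →
    ((0 < ρ₁ ∧ ρ₁ < 1 ∧ 0 < ρ₂ ∧ ρ₂ < 1 ∧ 1 ≤ β) ∨ (1 < ρ₁ ∧ 1 < ρ₂ ∧ 0 < β ∧ β ≤ 1)) →
    ∀ x y, f x = f y

/-- **JOB O2** (you may use `S_O3 F` as a hypothesis).  Let `X₁ = (n₁, 0)`, `X₂ = (n₂, 0)`, `X₀ = ev`.
`T_i x = D_i (O_i x + τ_i)`, `D_i q = (c_i q.fst, q.snd)`, is an affine equivalence of `Sp F` which maps
`Gr f` onto `Gr f`.  Its linear part is `ε_i D_i U_i` with a sign `ε_i`, and
`L_i X_j = ε_i c_i^[π_i(j) ≠ 0] X_{π_i(j)}` for the permutation `π_i` with `U_i X_j = X_{π_i(j)}`.  We list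
the factors of a map with diagonal linear part as (factor of `X₁`, factor of `X₂`, factor of `X₀`); a
conjugate `T_i A T_i⁻¹` of such a map multiplies `X_{π_i(j)}` by the factor of `X_j` in `A`.
All words below have total exponent `0` in `T_1` and in `T_2`, so the signs cancel.  Apply `S_O3`.

Case A (`U₁ ev = X₁, U₁ X₂ = X₂`; `U₂ ev = X₂, U₂ X₁ = X₁`).  `A = T₁²`: `(c₁, c₁², c₁)`;
`B = T₂ A T₂⁻¹`: `(c₁, c₁, c₁²)`; `C = T₁ B T₁⁻¹`: `(c₁², c₁, c₁)`; `W = B² A⁻¹ C⁻¹`: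
`(c₁⁻¹, c₁⁻¹, c₁²)`.

Case B (`U₁ ev = X₁, U₁ X₂ = X₂`; `U₂ ev = X₁, U₂ X₁ = X₂`).  `A = T₁²`: `(c₁, c₁², c₁)`;
`B = T₂ A T₂⁻¹`: `(c₁, c₁, c₁²)`; `C = T₂ B T₂⁻¹`: `(c₁², c₁, c₁)`; `W = B² A⁻¹ C⁻¹`:
`(c₁⁻¹, c₁⁻¹, c₁²)`.

Case C (`U₁ ev = X₂, U₁ X₂ = X₁`; `U₂ ev = X₂, U₂ X₁ = X₁`).  `A = T₂²`: `(c₂², c₂, c₂)`;
`B = T₁ A T₁⁻¹`: `(c₂, c₂, c₂²)`; `C = T₁ B T₁⁻¹`: `(c₂, c₂², c₂)`; `W = B² A⁻¹ C⁻¹`:
`(c₂⁻¹, c₂⁻¹, c₂²)`.

Case D (`U₁ ev = X₂, U₁ X₂ = X₁`; `U₂ ev = X₁, U₂ X₁ = X₂`).  `v₁ = T₁ T₂`: `(c₁ c₂, c₁, c₂)`;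
`v₂ = T₂ T₁`: `(c₂, c₁ c₂, c₁)`; `v₃ = T₁ v₁ T₁⁻¹`: `(c₁, c₂, c₁ c₂)` (all up to the sign `ε₁ ε₂`).
`v₃ v₂⁻¹`: `(c₁/c₂, 1/c₁, c₂)`, good if `1 < c₁ < c₂` or `c₂ < c₁ < 1`;
`v₃ v₁⁻¹`: `(1/c₂, c₂/c₁, c₁)`, good if `1 < c₂ < c₁` or `c₁ < c₂ < 1`;
`v₂ v₁⁻¹`: `(1/c₁, c₂, c₁/c₂)`, good if `c₂ < 1 < c₁` or `c₁ < 1 < c₂`. -/
def S_O2 : Prop :=
  ∀ (f : F → ℝ), Continuous f → ∀ (n₁ n₂ : F), ‖n₁‖ = 1 → ‖n₂‖ = 1 → inner ℝ n₁ n₂ = 0 →
    (∀ x : F, x = inner ℝ n₁ x • n₁ + inner ℝ n₂ x • n₂) →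
    ∀ (c₁ c₂ : ℝ), 0 < c₁ → 0 < c₂ → c₁ ≠ 1 → c₂ ≠ 1 → c₁ ≠ c₂ →
    ∀ (O₁ O₂ U₁ U₂ : Sp F ≃ₗᵢ[ℝ] Sp F) (τ₁ τ₂ : Sp F),
    Rel O₁ τ₁ f (sc f c₁) → Rel O₂ τ₂ f (sc f c₂) →
    ((∀ p, U₁ p = O₁ p) ∨ (∀ p, U₁ p = -(O₁ p))) → ((∀ p, U₂ p = O₂ p) ∨ (∀ p, U₂ p = -(O₂ p))) →
    U₁ (pt n₁ 0) = ev → U₂ (pt n₂ 0) = ev →
    ((U₁ ev = pt n₁ 0 ∧ U₁ (pt n₂ 0) = pt n₂ 0) ∨ (U₁ ev = pt n₂ 0 ∧ U₁ (pt n₂ 0) = pt n₁ 0)) →
    ((U₂ ev = pt n₂ 0 ∧ U₂ (pt n₁ 0) = pt n₁ 0) ∨ (U₂ ev = pt n₁ 0 ∧ U₂ (pt n₁ 0) = pt n₂ 0)) →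
    ∀ x y, f x = f y

/-- The normalising factor. -/
noncomputable def kap (δ a : ℝ) : ℝ := 1 / Real.sqrt (1 + (a * δ) ^ 2)

/-- **JOB P** (planar reduction).  For `a > 0` let `κ = kap δ a`, `G_a s = κ f ((a s) m)`,
`u_a = (e, a δ) ∈ La (sc f a)` (`mem_La_sc`), `w_a = κ (-(a δ) e, 1)`: a unit vector, orthogonal to
`(m, 0)` and to `u_a`; let `J_a : Sp ℝ → Sp F`, `J_a (s, r) = s (m, 0) + r w_a`, a linear isometry onto
the orthogonal complement of `u_a` (`Sp F` is spanned by `(m, 0)`, `w_a`, `u_a`).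
(1) `(s, r) ∈ Gr G_a ↔ J_a (s, r) ∈ Gr (sc f a)`: `J_a (s, r) = (s m - r κ a δ e, r κ)`, and
`f (a s m - r κ a² δ e) = f (a s m) - r κ a² δ²` as `(e, δ) ∈ La f`; so the right side says
`r κ (1 + a² δ²) = f (a s m)`, i.e. `r = κ f (a s m)` because `κ (1 + a² δ²) = 1 / κ`.
(2) `La (sc f a) = ℝ u_a`: otherwise, as `ev` is never in `La`, the horizontal parts `Vs f` of `La f`
would be all of `F` and `f` would be affine (`affine_of_const` with `(Vs f)ᗮ = ⊥`).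
(3) `O` maps `La f = ℝ u_1` onto `La (sc f c) = ℝ u_c` (`Rel.La_map`), so it maps the orthogonal
complement of `u_1` onto that of `u_c`.  Let `O' = J_c⁻¹ O J_1` and `τ' = J_c⁻¹ (π τ)`, `π` the
orthogonal projection onto the complement of `u_c`.  For `p : Sp ℝ`: `p ∈ Gr G_1` iff `J_1 p ∈ Gr f` iff
`O J_1 p + τ ∈ Gr (sc f c)` iff `O J_1 p + π τ ∈ Gr (sc f c)` (difference in `La (sc f c)`, `La_iff`) iff
`J_c (O' p + τ') ∈ Gr (sc f c)` iff `O' p + τ' ∈ Gr G_c`. -/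
def S_P : Prop :=
  ∀ (f : F → ℝ), Continuous f → ∀ (e m : F), ‖e‖ = 1 → ‖m‖ = 1 → inner ℝ e m = 0 →
    (∀ x : F, x = inner ℝ e x • e + inner ℝ m x • m) →
    ∀ δ : ℝ, pt e δ ∈ La f → (¬ ∃ L : F →ₗ[ℝ] ℝ, ∀ x, f x = f 0 + L x) →
    ∀ c : ℝ, 0 < c → ∀ (O : Sp F ≃ₗᵢ[ℝ] Sp F) (τ : Sp F), Rel O τ f (sc f c) →
    ∃ (O' : Sp ℝ ≃ₗᵢ[ℝ] Sp ℝ) (τ' : Sp ℝ),
      Rel O' τ' (fun s : ℝ => kap δ 1 * f (s • m)) (fun s : ℝ => kap δ c * f ((c * s) • m))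

end geometry

/-- **JOB Q2.**  Two self-similarities of a continuous function on the line with different exponents
force it to be constant.  Replace `S_i` by its inverse (a surjective similarity of the line is bijective)
if `ρ_i > 1`: the pair `(log ρ_i, log l_i)` changes its sign, so the hypothesis is kept.  So
`ρ_i < 1`.  If `l_i ≥ 1` for some `i`, use `HR.const_of_one`.  Otherwise `γ_i = log l_i / log ρ_i > 0`
and `γ_1 ≠ γ_2`; by symmetry `γ_1 > γ_2`.  Choose positive integers `N`, `M` with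
`N |log ρ₁| ≤ M |log ρ₂| < (γ_1 / γ_2) N |log ρ₁|` (`N` large, `M` the ceiling of
`N |log ρ₁| / |log ρ₂|`).  Then `ρ₂^M ≤ ρ₁^N < 1`, `l₁^N < l₂^M` and `l₁^N < 1`; apply
`HR.const_of_two` to `S₁^[N]`, `S₂^[M]` (`HR.iter_dist`, `HR.iter_val`). -/
def S_Q2 : Prop :=
  ∀ (g : ℝ → ℝ), Continuous g → ∀ (S₁ S₂ : ℝ → ℝ) (ρ₁ ρ₂ l₁ l₂ : ℝ), 0 < ρ₁ → 0 < ρ₂ → 0 < l₁ →
    0 < l₂ → ρ₁ ≠ 1 → ρ₂ ≠ 1 → Function.Surjective S₁ → Function.Surjective S₂ →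
    (∀ x y, |S₁ x - S₁ y| = ρ₁ * |x - y|) → (∀ x y, |S₂ x - S₂ y| = ρ₂ * |x - y|) →
    (∀ x y, |g (S₁ x) - g (S₁ y)| = l₁ * |g x - g y|) →
    (∀ x y, |g (S₂ x) - g (S₂ y)| = l₂ * |g x - g y|) →
    Real.log l₁ * Real.log ρ₂ ≠ Real.log l₂ * Real.log ρ₁ → ∀ x y, g x = g y

/-- **JOB Q3** (vertical type).  `R` is a linear isometry of the plane with `R ev = ± ev`, so
`R (s, r) = (η s, ± r)` with `η = ± 1`.  Let `R (s, r) + τ = (η s + t, ± r + t')`.  For `x`, with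
`s = x / a`: `(s, k g x)` is in the first graph, so `(η s + t, ± k g x + t')` is in the second one:
`k' g (a' (η x / a + t)) = ± k g x + t'`.  Put `S x = a' (η x / a + t)`. -/
def S_Q3 : Prop :=
  ∀ (g : ℝ → ℝ) (a k a' k' : ℝ), 0 < a → 0 < k → 0 < a' → 0 < k' →
    ∀ (R : Sp ℝ ≃ₗᵢ[ℝ] Sp ℝ) (τ : Sp ℝ),
    Rel R τ (fun s : ℝ => k * g (a * s)) (fun s : ℝ => k' * g (a' * s)) →
    (R ev = ev ∨ R ev = -ev) →
    ∃ S : ℝ → ℝ, Function.Surjective S ∧ (∀ x y, |S x - S y| = a' / a * |x - y|) ∧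
      ∀ x y, |g (S x) - g (S y)| = k / k' * |g x - g y|

/-- **JOB Q4** (horizontal type).  `(R.symm ev).snd = 0`, so `R.symm ev = (± 1, 0)` and
`R (s, r) = (η₁ r, η₂ s)` with signs `η₁, η₂`.  So `T (x, y) = (a' (η₁ k y + t₁), (η₂ x / a + t₂) / k')`
maps `Gr g` to `Gr g` (`(x, y) ∈ Gr g` iff `(x / a, k y)` is in the first graph; `(s', r')` is in the
second graph iff `(a' s', r' / k') ∈ Gr g`).  `T ∘ T` is `(x, y) ↦ (η ρ x + t, η ρ y + t')` with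
`η = η₁ η₂`, `ρ = a' k / (a k')`.  So `g (S x) = η ρ g x + t'` with `S x = η ρ x + t`. -/
def S_Q4 : Prop :=
  ∀ (g : ℝ → ℝ) (a k a' k' : ℝ), 0 < a → 0 < k → 0 < a' → 0 < k' →
    ∀ (R : Sp ℝ ≃ₗᵢ[ℝ] Sp ℝ) (τ : Sp ℝ),
    Rel R τ (fun s : ℝ => k * g (a * s)) (fun s : ℝ => k' * g (a' * s)) →
    (R.symm ev).snd = 0 →
    ∃ S : ℝ → ℝ, Function.Surjective S ∧ (∀ x y, |S x - S y| = a' * k / (a * k') * |x - y|) ∧
      ∀ x y, |g (S x) - g (S y)| = a' * k / (a * k') * |g x - g y|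

/-- **JOB Q5.**  `- log (kap δ (exp x)) = Λ x := log (1 + δ² exp (2 x)) / 2`.  For `δ ≠ 0` the function
`Λ` is strictly convex (`Λ' x = δ² exp(2x) / (1 + δ² exp(2x)) = 1 - 1 / (1 + δ² exp(2x))` is strictly
increasing: `strictConvexOn_of_deriv...`/`StrictMonoOn.strictConvexOn_of_deriv`), so its secant slopes
from `α = log a` to `log b` and to `log c` are different.  With `log (kap δ a / kap δ b) = Λ (log b) - Λ (log a)`
this is the first claim.  Second claim: `a kap δ a = 1 / sqrt (1 / a² + δ²)` increases strictly and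
`kap δ a` does not increase. -/
def S_Q5 : Prop :=
  (∀ δ a b c : ℝ, δ ≠ 0 → 0 < a → 0 < b → 0 < c → a ≠ b → a ≠ c → b ≠ c →
    Real.log (kap δ a / kap δ b) * Real.log (c / a) ≠
      Real.log (kap δ a / kap δ c) * Real.log (b / a)) ∧
  ∀ δ a b : ℝ, 0 < a → a < b → 0 < kap δ b ∧ a * kap δ a < b * kap δ b ∧ kap δ b ≤ kap δ a

end Pool.Agent.Q76.H2
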